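import Mathlib

set_option autoImplicit false

/-! # Heights on the function field of affine space: the degree of a reduced fraction -/

namespace Pool.Agent.H950R2.Sil

open MvPolynomial

section Divis

variable {M : Type*} [CommRing M] [IsDomain M] [UniqueFactorizationMonoid M]

lemma dvd_of_dvd_mul_of_dvd_mul {x y u v : M} (huv : IsRelPrime u v) (h1 : x ∣ y * u)
    (h2 : x ∣ y * v) : x ∣ y := by
  by_cases hx : x = 0
  · subst hx
    rw [zero_dvd_iff] at h1 h2 ⊢
    by_contra hy
    have hu : u = 0 := by simpa [hy] using h1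
    have hv : v = 0 := by simpa [hy] using h2
    subst hu hv
    exact not_isUnit_zero (huv (dvd_refl _) (dvd_refl _))
  obtain ⟨x1, x2, ⟨y1, rfl⟩, hx2, rfl⟩ := exists_dvd_and_dvd_of_dvd_mul h1
  have hx1 : x1 ≠ 0 := left_ne_zero_of_mul hx
  have h3 : x2 ∣ y1 * v := by
    rw [mul_assoc] at h2
    exact (mul_dvd_mul_iff_left hx1).mp h2
  have h4 : IsRelPrime x2 v := fun d hd hdv => huv (hd.trans hx2) hdv
  exact mul_dvd_mul_left x1 (h4.dvd_of_dvd_mul_right h3)

/-- If `(A : B : C) = (1 : r + s : r s)` with `r = a / b`, `s = c / d` reduced, then the triple is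
a multiple of `(b d : a d + b c : a c)`. -/
lemma exists_factor {a b c d A B C : M} (hab : IsRelPrime a b) (hcd : IsRelPrime c d)
    (hb : b ≠ 0) (hd : d ≠ 0)
    (hB : A * (a * d + b * c) = B * (b * d)) (hC : A * (a * c) = C * (b * d)) :
    ∃ g, A = g * (b * d) ∧ B = g * (a * d + b * c) ∧ C = g * (a * c) := by
  have hba : IsRelPrime b a := hab.symm
  have hdc : IsRelPrime d c := hcd.symm
  have s1 : b ∣ A * c := by
    have : b ∣ (A * c) * a := ⟨C * d, by linear_combination hC⟩
    exact hba.dvd_of_dvd_mul_right this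
  have s2 : b ∣ A * d := by
    have : b ∣ (A * d) * a := ⟨B * d - A * c, by linear_combination hB⟩
    exact hba.dvd_of_dvd_mul_right this
  obtain ⟨A1, rfl⟩ := dvd_of_dvd_mul_of_dvd_mul hcd s1 s2
  have hB' : A1 * (a * d + b * c) = B * d := mul_left_cancel₀ hb (by linear_combination hB)
  have hC' : A1 * (a * c) = C * d := mul_left_cancel₀ hb (by linear_combination hC)
  have s3 : d ∣ A1 * a := by
    have : d ∣ (A1 * a) * c := ⟨C, by linear_combination hC'⟩
    exact hdc.dvd_of_dvd_mul_right this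
  have s4 : d ∣ A1 * b := by
    have : d ∣ (A1 * b) * c := ⟨B - A1 * a, by linear_combination hB'⟩
    exact hdc.dvd_of_dvd_mul_right this
  obtain ⟨g, rfl⟩ := dvd_of_dvd_mul_of_dvd_mul hab s3 s4
  exact ⟨g, by ring, mul_right_cancel₀ hd (by linear_combination -hB'),
    mul_right_cancel₀ hd (by linear_combination -hC')⟩

end Divis

variable {K : Type*} [Field K] {σ : Type*}

/-- degree of a product -/
lemma tdeg_mul {p q : MvPolynomial σ K} (hp : p ≠ 0) (hq : q ≠ 0) :
    (p * q).totalDegree = p.totalDegree + q.totalDegree :=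
  totalDegree_mul_of_isDomain hp hq

lemma tdeg_mul_le (p q : MvPolynomial σ K) :
    (p * q).totalDegree ≤ p.totalDegree + q.totalDegree := totalDegree_mul p q

lemma tdeg_le_of_dvd {p q : MvPolynomial σ K} (h : p ∣ q) (hq : q ≠ 0) :
    p.totalDegree ≤ q.totalDegree := by
  obtain ⟨r, rfl⟩ := h
  rw [tdeg_mul (left_ne_zero_of_mul hq) (right_ne_zero_of_mul hq)]
  omega

/-- the function field -/
abbrev FF (σ K : Type*) [Field K] : Type _ := FractionRing (MvPolynomial σ K)

/-- the inclusion of the polynomial ring in the function field -/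
noncomputable abbrev ι (p : MvPolynomial σ K) : FF σ K := algebraMap (MvPolynomial σ K) (FF σ K) p

lemma ι_inj {p q : MvPolynomial σ K} (h : ι p = ι q) : p = q :=
  IsFractionRing.injective (MvPolynomial σ K) (FF σ K) h

lemma ι_ne_zero {p : MvPolynomial σ K} (h : p ≠ 0) : ι p ≠ 0 := by
  intro h0
  apply h
  apply ι_inj
  rw [h0]
  exact (map_zero _).symm

/-- The height of a rational function: the degree of a reduced fraction. -/
noncomputable def ht (z : FF σ K) : ℕ :=
  max (IsFractionRing.num (MvPolynomial σ K) z).totalDegree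
    (IsFractionRing.den (MvPolynomial σ K) z : MvPolynomial σ K).totalDegree

lemma exists_rep (z : FF σ K) : ∃ p q : MvPolynomial σ K, q ≠ 0 ∧ IsRelPrime p q ∧
    z = ι p / ι q ∧ p.totalDegree ≤ ht z ∧ q.totalDegree ≤ ht z := by
  refine ⟨IsFractionRing.num _ z, IsFractionRing.den (MvPolynomial σ K) z,
    nonZeroDivisors.ne_zero (IsFractionRing.den (MvPolynomial σ K) z).2,
    IsFractionRing.num_den_reduced _ z, ?_, le_max_left _ _, le_max_right _ _⟩
  conv_lhs => rw [← IsFractionRing.mk'_num_den (MvPolynomial σ K) z]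
  rw [IsFractionRing.mk'_eq_div]

lemma ht_le {z : FF σ K} {p q : MvPolynomial σ K} {n : ℕ} (hq : q ≠ 0) (h : z = ι p / ι q)
    (hp : p.totalDegree ≤ n) (hqn : q.totalDegree ≤ n) : ht z ≤ n := by
  have hrel := IsFractionRing.num_den_reduced (MvPolynomial σ K) z
  have hmk := IsFractionRing.mk'_num_den (MvPolynomial σ K) z
  rw [IsFractionRing.mk'_eq_div] at hmk
  have hd0 : (IsFractionRing.den (MvPolynomial σ K) z : MvPolynomial σ K) ≠ 0 :=
    nonZeroDivisors.ne_zero (IsFractionRing.den (MvPolynomial σ K) z).2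
  rw [ht]
  generalize IsFractionRing.num (MvPolynomial σ K) z = u at *
  generalize (IsFractionRing.den (MvPolynomial σ K) z : MvPolynomial σ K) = v at *
  have h1 : u * q = p * v := by
    apply ι_inj
    rw [ι, ι, map_mul, map_mul]
    have h2 : ι u / ι v = ι p / ι q := hmk.trans h
    rw [div_eq_div_iff (ι_ne_zero hd0) (ι_ne_zero hq)] at h2
    exact h2
  have hvq : v ∣ q := hrel.symm.dvd_of_dvd_mul_left ⟨p, by rw [h1, mul_comm]⟩
  have hup : u ∣ p := hrel.dvd_of_dvd_mul_right ⟨q, h1.symm⟩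
  refine max_le ?_ ((tdeg_le_of_dvd hvq hq).trans hqn)
  by_cases hp0 : p = 0
  · subst hp0
    rw [zero_mul, mul_eq_zero] at h1
    rw [h1.resolve_right hq]
    simp
  · exact (tdeg_le_of_dvd hup hp0).trans hp

lemma le_ht {z : FF σ K} {p q : MvPolynomial σ K} (hq : q ≠ 0) (hrel : IsRelPrime p q)
    (h : z = ι p / ι q) : p.totalDegree ≤ ht z ∧ q.totalDegree ≤ ht z := by
  obtain ⟨u, v, hv, huv, hz, hu', hv'⟩ := exists_rep z
  have h1 : u * q = p * v := by
    apply ι_inj
    rw [ι, ι, map_mul, map_mul]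
    have h2 : ι u / ι v = ι p / ι q := hz.symm.trans h
    rw [div_eq_div_iff (ι_ne_zero hv) (ι_ne_zero hq)] at h2
    exact h2
  have hqv : q ∣ v := hrel.symm.dvd_of_dvd_mul_left ⟨u, by rw [← h1, mul_comm]⟩
  have hpu : p ∣ u := hrel.dvd_of_dvd_mul_right ⟨v, h1⟩
  refine ⟨?_, (tdeg_le_of_dvd hqv hv).trans hv'⟩
  by_cases hu0 : u = 0
  · subst hu0
    rw [zero_mul] at h1
    rcases mul_eq_zero.mp h1.symm with h | h
    · rw [h]; simp
    · exact absurd h hv
  · exact (tdeg_le_of_dvd hpu hu0).trans hu'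

/-- **Heights of the roots of a quadratic polynomial.** -/
lemma ht_add_ht_le {r s : FF σ K} {A B C : MvPolynomial σ K} {n : ℕ} (hA : A ≠ 0)
    (hB : ι A * (r + s) = ι B) (hC : ι A * (r * s) = ι C) (h1 : A.totalDegree ≤ n)
    (h2 : B.totalDegree ≤ n) (h3 : C.totalDegree ≤ n) : ht r + ht s ≤ n := by
  have key : ∀ z : FF σ K, ∃ p q : MvPolynomial σ K, q ≠ 0 ∧ IsRelPrime p q ∧
      z = ι p / ι q ∧ max p.totalDegree q.totalDegree = ht z := by
    intro z
    obtain ⟨p, q, hq, hpq, hz, h1, h2⟩ := exists_rep z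
    exact ⟨p, q, hq, hpq, hz, le_antisymm (max_le h1 h2)
      (ht_le hq hz (le_max_left _ _) (le_max_right _ _))⟩
  obtain ⟨a, b, hb, hab, hr, hr'⟩ := key r
  obtain ⟨c, d, hd, hcd, hs, hs'⟩ := key s
  have hb' := ι_ne_zero hb
  have hd' := ι_ne_zero hd
  have e1 : A * (a * d + b * c) = B * (b * d) := by
    apply ι_inj
    simp only [ι, map_mul, map_add]
    rw [hr, hs] at hB
    simp only [ι] at hB hb' hd'
    rw [← hB]
    field_simp
  have e2 : A * (a * c) = C * (b * d) := by
    apply ι_inj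
    simp only [ι, map_mul]
    rw [hr, hs] at hC
    simp only [ι] at hC hb' hd'
    rw [← hC]
    field_simp
  obtain ⟨g, rfl, rfl, rfl⟩ := exists_factor hab hcd hb hd e1 e2
  have hg : g ≠ 0 := left_ne_zero_of_mul hA
  rw [← hr', ← hs']
  rw [tdeg_mul hg (mul_ne_zero hb hd), tdeg_mul hb hd] at h1
  have h4 : g * (a * d + b * c) = 0 ∨ (a * d + b * c).totalDegree ≤ n := by
    by_cases h : a * d + b * c = 0
    · left; rw [h, mul_zero]
    · right; rw [tdeg_mul hg h] at h2; omega
  have h5 : a * c ≠ 0 → a.totalDegree + c.totalDegree ≤ n := by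
    intro h
    rw [tdeg_mul hg h, tdeg_mul (left_ne_zero_of_mul h) (right_ne_zero_of_mul h)] at h3
    omega
  rcases le_or_gt a.totalDegree b.totalDegree with hle | hlt <;>
  rcases le_or_gt c.totalDegree d.totalDegree with hle' | hlt'
  · omega
  · -- deg a ≤ deg b, deg d < deg c
    have hc0 : c ≠ 0 := by rintro rfl; simp at hlt'
    have hlt2 : (a * d).totalDegree < (b * c).totalDegree := by
      rw [tdeg_mul hb hc0]
      have := tdeg_mul_le a d
      omega
    have h6 := totalDegree_add_eq_right_of_totalDegree_lt hlt2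
    have h7 : a * d + b * c ≠ 0 := by
      intro h
      rw [h, totalDegree_zero] at h6
      omega
    rw [tdeg_mul hg h7, h6, tdeg_mul hb hc0] at h2
    omega
  · -- deg b < deg a, deg c ≤ deg d
    have ha0 : a ≠ 0 := by rintro rfl; simp at hlt
    have hlt2 : (b * c).totalDegree < (a * d).totalDegree := by
      rw [tdeg_mul ha0 hd]
      have := tdeg_mul_le b c
      omega
    have h6 := totalDegree_add_eq_left_of_totalDegree_lt hlt2
    have h7 : a * d + b * c ≠ 0 := by
      intro h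
      rw [h, totalDegree_zero] at h6
      omega
    rw [tdeg_mul hg h7, h6, tdeg_mul ha0 hd] at h2
    omega
  · have ha0 : a ≠ 0 := by rintro rfl; simp at hlt
    have hc0 : c ≠ 0 := by rintro rfl; simp at hlt'
    have := h5 (mul_ne_zero ha0 hc0)
    omega

lemma ht_add (r s : FF σ K) : ht (r + s) ≤ ht r + ht s := by
  obtain ⟨a, b, hb, -, hr, h1, h2⟩ := exists_rep r
  obtain ⟨c, d, hd, -, hs, h3, h4⟩ := exists_rep s
  have hb' := ι_ne_zero hb
  have hd' := ι_ne_zero hd
  refine ht_le (p := a * d + b * c) (q := b * d) (mul_ne_zero hb hd) ?_ ?_ ?_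
  · rw [hr, hs]
    simp only [ι, map_mul, map_add] at *
    field_simp
  · refine (totalDegree_add _ _).trans (max_le ?_ ?_)
    · have := tdeg_mul_le a d; omega
    · have := tdeg_mul_le b c; omega
  · have := tdeg_mul_le b d; omega

lemma ht_mul (r s : FF σ K) : ht (r * s) ≤ ht r + ht s := by
  obtain ⟨a, b, hb, -, hr, h1, h2⟩ := exists_rep r
  obtain ⟨c, d, hd, -, hs, h3, h4⟩ := exists_rep s
  have hb' := ι_ne_zero hb
  have hd' := ι_ne_zero hd
  refine ht_le (p := a * c) (q := b * d) (mul_ne_zero hb hd) ?_ ?_ ?_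
  · rw [hr, hs]
    simp only [ι, map_mul] at *
    field_simp
  · have := tdeg_mul_le a c; omega
  · have := tdeg_mul_le b d; omega

lemma ht_inv (r : FF σ K) : ht r⁻¹ ≤ ht r := by
  obtain ⟨a, b, hb, -, hr, h1, h2⟩ := exists_rep r
  by_cases ha : a = 0
  · have : r = 0 := by rw [hr, ha]; simp
    rw [this]; simp
  · exact ht_le (p := b) (q := a) ha (by rw [hr, inv_div]) h2 h1

lemma ht_neg (r : FF σ K) : ht (-r) ≤ ht r := by
  obtain ⟨a, b, hb, -, hr, h1, h2⟩ := exists_rep r
  refine ht_le (p := -a) (q := b) hb ?_ (by rwa [totalDegree_neg]) h2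
  rw [hr]
  simp only [ι, map_neg]
  ring

lemma ht_sub (r s : FF σ K) : ht (r - s) ≤ ht r + ht s := by
  rw [sub_eq_add_neg]
  have := ht_add r (-s)
  have := ht_neg s
  omega

lemma ht_div (r s : FF σ K) : ht (r / s) ≤ ht r + ht s := by
  rw [div_eq_mul_inv]
  have := ht_mul r s⁻¹
  have := ht_inv s
  omega

end Pool.Agent.H950R2.Sil
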