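import Mathlib
import Pool.Agent.H950R2.Sil.Height

set_option autoImplicit false

/-! # The curve `y² + y = x³ + t x` over a field and its heights over a function field -/

namespace Pool.Agent.H950R2.Sil

open WeierstrassCurve WeierstrassCurve.Affine

section General

variable {F : Type*} [Field F]

/-- the curve `y² + y = x³ + t x` -/
def EC (t : F) : WeierstrassCurve.Affine F := ⟨0, 0, 1, t, 0⟩

/-- the first coordinate of a point (and `0` for the origin) -/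
def xc {W : WeierstrassCurve.Affine F} : W.Point → F
  | 0 => 0
  | .some x _ _ => x

@[simp] lemma xc_zero {W : WeierstrassCurve.Affine F} : xc (0 : W.Point) = 0 := rfl

@[simp] lemma xc_some {W : WeierstrassCurve.Affine F} {x y : F} (h : W.Nonsingular x y) :
    xc (Point.some x y h) = x := rfl

@[simp] lemma xc_neg {W : WeierstrassCurve.Affine F} (P : W.Point) : xc (-P) = xc P := by
  cases P <;> rfl

variable {t : F}

lemma EC_eqn (x y : F) : (EC t).Equation x y ↔ y ^ 2 + y = x ^ 3 + t * x := by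
  rw [Affine.equation_iff]
  simp [EC]

lemma EC_Δ : (EC t).Δ = -(64 * t ^ 3 + 27) := by
  simp only [WeierstrassCurve.Δ, WeierstrassCurve.b₂, WeierstrassCurve.b₄, WeierstrassCurve.b₆,
    WeierstrassCurve.b₈, EC]
  ring

lemma EC_nonsing (ht : 64 * t ^ 3 + 27 ≠ 0) {x y : F} (h : y ^ 2 + y = x ^ 3 + t * x) :
    (EC t).Nonsingular x y := by
  refine (Affine.equation_iff_nonsingular_of_Δ_ne_zero ?_).mp ((EC_eqn x y).mpr h)
  rw [EC_Δ]
  exact neg_ne_zero.mpr ht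

variable [DecidableEq F]

lemma add_val {x₁ y₁ x₂ y₂ : F} (h₁ : (EC t).Nonsingular x₁ y₁) (h₂ : (EC t).Nonsingular x₂ y₂)
    (hx : x₁ ≠ x₂) {l x y : F} (hl : l * (x₁ - x₂) = y₁ - y₂) (hX : x = l ^ 2 - x₁ - x₂)
    (hY : y = -(l * (x - x₁) + y₁) - 1) :
    ∃ h, Point.some x₁ y₁ h₁ + Point.some x₂ y₂ h₂ = Point.some x y h := by
  have hs : (EC t).slope x₁ x₂ y₁ y₂ = l := by
    rw [slope_of_X_ne hx, div_eq_iff (sub_ne_zero.mpr hx), hl]
  have e1 : (EC t).addX x₁ x₂ ((EC t).slope x₁ x₂ y₁ y₂) = x := by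
    rw [hs, addX, hX]; simp [EC]
  have e2 : (EC t).addY x₁ x₂ y₁ ((EC t).slope x₁ x₂ y₁ y₂) = y := by
    rw [addY, negAddY, e1, hs, negY, hY]; simp [EC]
  have h := Point.add_of_X_ne (W := EC t) (h₁ := h₁) (h₂ := h₂) hx
  subst e1 e2
  exact ⟨_, h⟩

omit [DecidableEq F] in
lemma neg_val {x₁ y₁ : F} (h₁ : (EC t).Nonsingular x₁ y₁) {y : F} (hy : y = -1 - y₁) :
    ∃ h, -Point.some x₁ y₁ h₁ = Point.some x₁ y h := by
  have e : (EC t).negY x₁ y₁ = y := by rw [negY, hy]; simp [EC]; ring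
  subst e
  exact ⟨_, Point.neg_some h₁⟩

lemma dbl_val {x₁ y₁ : F} (h₁ : (EC t).Nonsingular x₁ y₁)
    (hy0 : 2 * y₁ + 1 ≠ 0) {l x y : F} (hl : l * (2 * y₁ + 1) = 3 * x₁ ^ 2 + t)
    (hX : x = l ^ 2 - 2 * x₁) (hY : y = -(l * (x - x₁) + y₁) - 1) :
    ∃ h, Point.some x₁ y₁ h₁ + Point.some x₁ y₁ h₁ = Point.some x y h := by
  have hne : y₁ ≠ (EC t).negY x₁ y₁ := by
    intro h
    apply hy0
    rw [negY] at h
    simp [EC] at h
    linear_combination h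
  have hs : (EC t).slope x₁ x₁ y₁ y₁ = l := by
    rw [slope_of_Y_ne rfl hne]
    have : y₁ - (EC t).negY x₁ y₁ = 2 * y₁ + 1 := by rw [negY]; simp [EC]; ring
    rw [this, div_eq_iff hy0, hl]
    simp [EC]
  have e1 : (EC t).addX x₁ x₁ ((EC t).slope x₁ x₁ y₁ y₁) = x := by
    rw [hs, addX, hX]; simp [EC]; ring
  have e2 : (EC t).addY x₁ x₁ y₁ ((EC t).slope x₁ x₁ y₁ y₁) = y := by
    rw [addY, negAddY, e1, hs, negY, hY]; simp [EC]
  have h := Point.add_self_of_Y_ne (W := EC t) (h₁ := h₁) hne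
  subst e1 e2
  exact ⟨_, h⟩

/-- sum and product of the first coordinates of `P + Q` and `P - Q` -/
lemma add_sub_val {x₁ y₁ x₂ y₂ : F} (h₁ : (EC t).Nonsingular x₁ y₁)
    (h₂ : (EC t).Nonsingular x₂ y₂) (hx : x₁ ≠ x₂) :
    (x₁ - x₂) ^ 2 * (xc (Point.some x₁ y₁ h₁ + Point.some x₂ y₂ h₂) +
      xc (Point.some x₁ y₁ h₁ - Point.some x₂ y₂ h₂)) =
        2 * x₁ * x₂ * (x₁ + x₂) + 2 * t * (x₁ + x₂) + 1 ∧
    (x₁ - x₂) ^ 2 * (xc (Point.some x₁ y₁ h₁ + Point.some x₂ y₂ h₂) *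
      xc (Point.some x₁ y₁ h₁ - Point.some x₂ y₂ h₂)) =
        (x₁ * x₂ - t) ^ 2 - (x₁ + x₂) := by
  have q1 := (EC_eqn _ _).mp h₁.1
  have q2 := (EC_eqn _ _).mp h₂.1
  have hd : x₁ - x₂ ≠ 0 := sub_ne_zero.mpr hx
  obtain ⟨g1, e1⟩ := add_val h₁ h₂ hx (l := (y₁ - y₂) / (x₁ - x₂)) (by field_simp) rfl rfl
  obtain ⟨g2, e2⟩ := neg_val h₂ (y := -1 - y₂) rfl
  obtain ⟨g3, e3⟩ := add_val h₁ g2 hx (l := (y₁ - (-1 - y₂)) / (x₁ - x₂)) (by field_simp) rfl rfl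
  have e4 : Point.some x₁ y₁ h₁ - Point.some x₂ y₂ h₂ =
      Point.some x₁ y₁ h₁ + -Point.some x₂ y₂ h₂ := sub_eq_add_neg _ _
  rw [e4, e2, e1, e3, xc_some, xc_some]
  have huv : (y₁ - y₂) * (y₁ - (-1 - y₂)) = (x₁ - x₂) * (x₁ ^ 2 + x₁ * x₂ + x₂ ^ 2 + t) := by
    linear_combination q1 - q2
  have hs : (y₁ - y₂) ^ 2 + (y₁ - (-1 - y₂)) ^ 2 =
      2 * (x₁ ^ 3 + t * x₁) + 2 * (x₂ ^ 3 + t * x₂) + 1 := by
    linear_combination 2 * q1 + 2 * q2
  generalize y₁ - y₂ = u at *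
  generalize y₁ - (-1 - y₂) = v at *
  constructor
  · field_simp
    linear_combination hs
  · have e5 : (x₁ - x₂) ^ 2 * (((u / (x₁ - x₂)) ^ 2 - x₁ - x₂) * ((v / (x₁ - x₂)) ^ 2 - x₁ - x₂)) =
        (u ^ 2 - (x₁ + x₂) * (x₁ - x₂) ^ 2) * (v ^ 2 - (x₁ + x₂) * (x₁ - x₂) ^ 2) /
          (x₁ - x₂) ^ 2 := by
      field_simp
      ring
    rw [e5, div_eq_iff (pow_ne_zero 2 hd)]
    linear_combination (u * v + (x₁ - x₂) * (x₁ ^ 2 + x₁ * x₂ + x₂ ^ 2 + t)) * huv -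
      (x₁ + x₂) * (x₁ - x₂) ^ 2 * hs

omit [DecidableEq F] in
lemma psi_sq {x y : F} (h : y ^ 2 + y = x ^ 3 + t * x) :
    (2 * y + 1) ^ 2 = 4 * x ^ 3 + 4 * t * x + 1 := by
  linear_combination 4 * h

/-- the duplication formula -/
lemma dbl_xc {x₁ y₁ : F} (h₁ : (EC t).Nonsingular x₁ y₁)
    (h0 : 4 * x₁ ^ 3 + 4 * t * x₁ + 1 ≠ 0) :
    ∃ y h, Point.some x₁ y₁ h₁ + Point.some x₁ y₁ h₁ =
      Point.some ((x₁ ^ 4 - 2 * t * x₁ ^ 2 - 2 * x₁ + t ^ 2) / (4 * x₁ ^ 3 + 4 * t * x₁ + 1))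
        y h := by
  have q1 := (EC_eqn _ _).mp h₁.1
  have hp := psi_sq q1
  have hy0 : 2 * y₁ + 1 ≠ 0 := by
    intro h
    apply h0
    rw [← hp, h]
    ring
  obtain ⟨g, e⟩ := dbl_val h₁ hy0 (l := (3 * x₁ ^ 2 + t) / (2 * y₁ + 1))
    (x := (x₁ ^ 4 - 2 * t * x₁ ^ 2 - 2 * x₁ + t ^ 2) / (4 * x₁ ^ 3 + 4 * t * x₁ + 1))
    (by field_simp) (by
      rw [← hp]
      field_simp
      rw [hp]
      ring) rfl
  exact ⟨_, g, e⟩

lemma dbl_zero {x₁ y₁ : F} (h₁ : (EC t).Nonsingular x₁ y₁)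
    (h0 : 4 * x₁ ^ 3 + 4 * t * x₁ + 1 = 0) :
    Point.some x₁ y₁ h₁ + Point.some x₁ y₁ h₁ = 0 := by
  have q1 := (EC_eqn _ _).mp h₁.1
  have hp := psi_sq q1
  have hy0 : 2 * y₁ + 1 = 0 := by
    rw [h0] at hp
    exact pow_eq_zero_iff (two_ne_zero) |>.mp hp
  refine Point.add_self_of_Y_eq ?_
  rw [negY]
  simp [EC]
  linear_combination hy0

omit [DecidableEq F] in
lemma par_alg_add {a b c d u v S : F} (hb : b ≠ 0) (hd : d ≠ 0) (hv : v ≠ 0)
    (s1 : (a / b - c / d) ^ 2 * S = 2 * (a / b) * (c / d) * (a / b + c / d) +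
      2 * (u / v) * (a / b + c / d) + 1) :
    v ^ 2 * (a * d - c * b) ^ 2 * S = 2 * (v ^ 2 * (a * c * (a * d + c * b))) +
      2 * (u * v * ((a * d + c * b) * (b * d))) + v ^ 2 * (b * d) ^ 2 := by
  have e : v ^ 2 * (a * d - c * b) ^ 2 * S =
      (v * (b * d)) ^ 2 * ((a / b - c / d) ^ 2 * S) := by
    field_simp
  rw [e, s1]
  field_simp

omit [DecidableEq F] in
lemma par_alg_mul {a b c d u v S : F} (hb : b ≠ 0) (hd : d ≠ 0) (hv : v ≠ 0)
    (s1 : (a / b - c / d) ^ 2 * S = (a / b * (c / d) - u / v) ^ 2 - (a / b + c / d)) :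
    v ^ 2 * (a * d - c * b) ^ 2 * S = (v * (a * c) - u * (b * d)) ^ 2 -
      v ^ 2 * ((a * d + c * b) * (b * d)) := by
  have e : v ^ 2 * (a * d - c * b) ^ 2 * S =
      (v * (b * d)) ^ 2 * ((a / b - c / d) ^ 2 * S) := by
    field_simp
  rw [e, s1]
  field_simp

omit [DecidableEq F] in
lemma dbl_alg {a b u v : F} (hb : b ≠ 0) (hv : v ≠ 0)
    (h0 : 4 * (a / b) ^ 3 + 4 * (u / v) * (a / b) + 1 ≠ 0) :
    (((a / b) ^ 4 - 2 * (u / v) * (a / b) ^ 2 - 2 * (a / b) + (u / v) ^ 2) /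
      (4 * (a / b) ^ 3 + 4 * (u / v) * (a / b) + 1)) =
    (v ^ 2 * a ^ 4 - 2 * (u * v * (a ^ 2 * b ^ 2)) - 2 * (v ^ 2 * (a * b ^ 3)) + u ^ 2 * b ^ 4) /
      (v * b * (4 * (v * a ^ 3) + 4 * (u * (a * b ^ 2)) + v * b ^ 3)) ∧
      v * b * (4 * (v * a ^ 3) + 4 * (u * (a * b ^ 2)) + v * b ^ 3) ≠ 0 := by
  have e : v * b * (4 * (v * a ^ 3) + 4 * (u * (a * b ^ 2)) + v * b ^ 3) =
      v ^ 2 * b ^ 4 * (4 * (a / b) ^ 3 + 4 * (u / v) * (a / b) + 1) := by
    field_simp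
  have h1 : v * b * (4 * (v * a ^ 3) + 4 * (u * (a * b ^ 2)) + v * b ^ 3) ≠ 0 := by
    rw [e]
    exact mul_ne_zero (mul_ne_zero (pow_ne_zero _ hv) (pow_ne_zero _ hb)) h0
  refine ⟨?_, h1⟩
  rw [div_eq_div_iff h0 h1, e]
  field_simp

end General

section Heights

variable {K : Type*} [Field K] {σ : Type*} {t : FF σ K}

@[simp] lemma ht_zero : ht (0 : FF σ K) = 0 := by
  exact Nat.le_zero.mp (ht_le (p := 0) (q := 1) one_ne_zero (by simp) (by simp) (by simp))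

/-- The height of a point: the degree of its first coordinate. -/
noncomputable def hx {W : WeierstrassCurve.Affine (FF σ K)} (P : W.Point) : ℕ := ht (xc P)

@[simp] lemma hx_zero {W : WeierstrassCurve.Affine (FF σ K)} : hx (0 : W.Point) = 0 := by
  simp [hx]

@[simp] lemma hx_neg {W : WeierstrassCurve.Affine (FF σ K)} (P : W.Point) : hx (-P) = hx P := by
  simp [hx]

section deg

variable {p q : MvPolynomial σ K} {m n : ℕ}

lemma dg_mul (hp : p.totalDegree ≤ m) (hq : q.totalDegree ≤ n) :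
    (p * q).totalDegree ≤ m + n := (MvPolynomial.totalDegree_mul p q).trans (by omega)

lemma dg_add (hp : p.totalDegree ≤ n) (hq : q.totalDegree ≤ n) : (p + q).totalDegree ≤ n :=
  (MvPolynomial.totalDegree_add p q).trans (max_le hp hq)

lemma dg_sub (hp : p.totalDegree ≤ n) (hq : q.totalDegree ≤ n) : (p - q).totalDegree ≤ n := by
  rw [sub_eq_add_neg]
  exact dg_add hp (by rwa [MvPolynomial.totalDegree_neg])

lemma dg_pow (hp : p.totalDegree ≤ m) (k : ℕ) : (p ^ k).totalDegree ≤ k * m :=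
  (MvPolynomial.totalDegree_pow p k).trans (Nat.mul_le_mul_left k hp)

lemma dg_num (k : ℕ) [k.AtLeastTwo] :
    (OfNat.ofNat k : MvPolynomial σ K).totalDegree ≤ 0 := by
  have : (OfNat.ofNat k : MvPolynomial σ K) = MvPolynomial.C (OfNat.ofNat k) :=
    (map_ofNat MvPolynomial.C k).symm
  rw [this, MvPolynomial.totalDegree_C]

lemma dg_one : (1 : MvPolynomial σ K).totalDegree ≤ 0 := by simp

lemma dg_le (hp : p.totalDegree ≤ m) (h : m ≤ n) : p.totalDegree ≤ n := hp.trans h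

end deg

variable [DecidableEq (FF σ K)]

/-- **Upper parallelogram inequality.** -/
lemma hx_par (P Q : (EC t).Point) :
    hx (P + Q) + hx (P - Q) ≤ 2 * hx P + 2 * hx Q + 2 * ht t := by
  obtain ⟨u, v, hv, -, ht', htu, htv⟩ := exists_rep t
  rcases P with _ | ⟨x₁, y₁, h₁⟩
  · change hx (0 + Q) + hx (0 - Q) ≤ 2 * hx 0 + 2 * hx Q + 2 * ht t
    rw [zero_add, zero_sub, hx_neg, hx_zero]
    omega
  rcases Q with _ | ⟨x₂, y₂, h₂⟩
  · change hx (Point.some x₁ y₁ h₁ + 0) + hx (Point.some x₁ y₁ h₁ - 0) ≤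
      2 * hx (Point.some x₁ y₁ h₁) + 2 * hx 0 + 2 * ht t
    rw [add_zero, sub_zero, hx_zero]
    omega
  obtain ⟨a, b, hb, -, hr, ha1, hb1⟩ := exists_rep x₁
  obtain ⟨c, d, hd, -, hs, hc1, hd1⟩ := exists_rep x₂
  have hb' := ι_ne_zero hb
  have hd' := ι_ne_zero hd
  have hv' := ι_ne_zero hv
  have E1 : hx (Point.some x₁ y₁ h₁) = ht x₁ := rfl
  have E2 : hx (Point.some x₂ y₂ h₂) = ht x₂ := rfl
  rw [E1, E2]
  generalize ht x₁ = H1 at *
  generalize ht x₂ = H2 at *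
  generalize ht t = T at *
  by_cases hx12 : x₁ = x₂
  · have key : ∀ {y : FF σ K} (h : (EC t).Nonsingular x₁ y),
        hx (Point.some x₁ y h + Point.some x₁ y h) ≤ 4 * H1 + 2 * T := by
      intro y h
      by_cases h0 : 4 * x₁ ^ 3 + 4 * t * x₁ + 1 = 0
      · rw [dbl_zero h h0, hx_zero]
        omega
      · obtain ⟨y', h', e⟩ := dbl_xc h h0
        rw [e, hx, xc_some]
        rw [hr, ht'] at h0
        obtain ⟨e1, e2⟩ := dbl_alg hb' hv' h0
        rw [hr, ht', e1]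
        refine ht_le (p := v ^ 2 * a ^ 4 - 2 * (u * v * (a ^ 2 * b ^ 2)) -
          2 * (v ^ 2 * (a * b ^ 3)) + u ^ 2 * b ^ 4)
          (q := v * b * (4 * (v * a ^ 3) + 4 * (u * (a * b ^ 2)) + v * b ^ 3)) ?_ ?_ ?_ ?_
        · intro h3
          apply e2
          have := congrArg ι h3
          simp only [ι, map_mul, map_add, map_pow, map_ofNat, map_zero] at this
          exact this
        · simp only [ι, map_mul, map_add, map_sub, map_pow, map_ofNat]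
        · refine dg_add (dg_sub (dg_sub ?_ ?_) ?_) ?_
          · exact dg_le (dg_mul (dg_pow htv 2) (dg_pow ha1 4)) (by omega)
          · exact dg_le (dg_mul (dg_num 2) (dg_mul (dg_mul htu htv)
              (dg_mul (dg_pow ha1 2) (dg_pow hb1 2)))) (by omega)
          · exact dg_le (dg_mul (dg_num 2) (dg_mul (dg_pow htv 2)
              (dg_mul ha1 (dg_pow hb1 3)))) (by omega)
          · exact dg_le (dg_mul (dg_pow htu 2) (dg_pow hb1 4)) (by omega)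
        · refine dg_le (dg_mul (dg_mul htv hb1) (n := T + 3 * H1) (dg_add (dg_add ?_ ?_) ?_))
            (by omega)
          · exact dg_le (dg_mul (dg_num 4) (dg_mul htv (dg_pow ha1 3))) (by omega)
          · exact dg_le (dg_mul (dg_num 4) (dg_mul htu (dg_mul ha1 (dg_pow hb1 2)))) (by omega)
          · exact dg_le (dg_mul htv (dg_pow hb1 3)) (by omega)
    have hH : H1 = H2 := by rw [← E1, ← E2, hx, hx, xc_some, xc_some, hx12]
    have hPQ := (Point.X_eq_iff (h₁ := h₁) (h₂ := h₂)).mp hx12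
    rcases hPQ with h | h
    · rw [← h, sub_self, hx_zero]
      have := key h₁
      omega
    · have h' : Point.some x₂ y₂ h₂ = - Point.some x₁ y₁ h₁ := by rw [h, neg_neg]
      rw [h', add_neg_cancel, sub_neg_eq_add, hx_zero]
      have := key h₁
      omega
  · obtain ⟨s1, s2⟩ := add_sub_val h₁ h₂ hx12
    have hne : a * d - c * b ≠ 0 := by
      intro h
      apply hx12
      rw [hr, hs, div_eq_div_iff hb' hd', ι, ι, ι, ι, ← map_mul, ← map_mul, sub_eq_zero.mp h]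
    have hX1 : hx (Point.some x₁ y₁ h₁ + Point.some x₂ y₂ h₂) =
      ht (xc (Point.some x₁ y₁ h₁ + Point.some x₂ y₂ h₂)) := rfl
    have hX2 : hx (Point.some x₁ y₁ h₁ - Point.some x₂ y₂ h₂) =
      ht (xc (Point.some x₁ y₁ h₁ - Point.some x₂ y₂ h₂)) := rfl
    rw [hX1, hX2]
    generalize xc (Point.some x₁ y₁ h₁ + Point.some x₂ y₂ h₂) = S1 at *
    generalize xc (Point.some x₁ y₁ h₁ - Point.some x₂ y₂ h₂) = S2 at *
    rw [hr, hs, ht'] at s1 s2
    have r1 := par_alg_add hb' hd' hv' s1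
    have r2 := par_alg_mul hb' hd' hv' s2
    refine ht_add_ht_le (A := v ^ 2 * (a * d - c * b) ^ 2)
      (B := 2 * (v ^ 2 * (a * c * (a * d + c * b))) + 2 * (u * v * ((a * d + c * b) * (b * d))) +
        v ^ 2 * (b * d) ^ 2)
      (C := (v * (a * c) - u * (b * d)) ^ 2 - v ^ 2 * ((a * d + c * b) * (b * d)))
      (mul_ne_zero (pow_ne_zero 2 hv) (pow_ne_zero 2 hne)) ?_ ?_ ?_ ?_ ?_
    · simp only [ι, map_mul, map_add, map_sub, map_pow, map_ofNat] at r1 ⊢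
      exact r1
    · simp only [ι, map_mul, map_add, map_sub, map_pow] at r2 ⊢
      exact r2
    · exact dg_le (dg_mul (dg_pow htv 2) (dg_pow (dg_sub (dg_mul ha1 hd1)
        (dg_le (dg_mul hc1 hb1) (by omega))) 2)) (by omega)
    · have hs' : (a * d + c * b).totalDegree ≤ H1 + H2 :=
        dg_add (dg_mul ha1 hd1) (dg_le (dg_mul hc1 hb1) (by omega))
      refine dg_add (dg_add ?_ ?_) ?_
      · exact dg_le (dg_mul (dg_num 2) (dg_mul (dg_pow htv 2)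
          (dg_mul (dg_mul ha1 hc1) hs'))) (by omega)
      · exact dg_le (dg_mul (dg_num 2) (dg_mul (dg_mul htu htv)
          (dg_mul hs' (dg_mul hb1 hd1)))) (by omega)
      · exact dg_le (dg_mul (dg_pow htv 2) (dg_pow (dg_mul hb1 hd1) 2)) (by omega)
    · have hs' : (a * d + c * b).totalDegree ≤ H1 + H2 :=
        dg_add (dg_mul ha1 hd1) (dg_le (dg_mul hc1 hb1) (by omega))
      refine dg_sub ?_ ?_
      · exact dg_le (dg_pow (m := T + (H1 + H2)) (dg_sub (dg_mul htv (dg_mul ha1 hc1))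
          (dg_mul htu (dg_mul hb1 hd1))) 2) (by omega)
      · exact dg_le (dg_mul (dg_pow htv 2) (dg_mul hs' (dg_mul hb1 hd1))) (by omega)

end Heights

end Pool.Agent.H950R2.Sil
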