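import Mathlib
import Pool.Agent.H950R2.Sil.Curve

set_option autoImplicit false

/-! # The multiples of the section `(0, 0)` -/

namespace Pool.Agent.H950R2.Sil

open Polynomial WeierstrassCurve WeierstrassCurve.Affine

section Dup

variable {K : Type*} [Field K]

/-- the numerator of the duplication formula -/
noncomputable def dN (a b : K[X]) : K[X] :=
  a ^ 4 - 2 * X * a ^ 2 * b ^ 2 - 2 * a * b ^ 3 + X ^ 2 * b ^ 4

/-- the denominator of the duplication formula -/
noncomputable def dM (a b : K[X]) : K[X] := b * (4 * a ^ 3 + 4 * X * a * b ^ 2 + b ^ 3)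

lemma dbezout (a b : K[X]) :
    b * (48 * a ^ 2 + 64 * X * b ^ 2) * dN a b -
      (12 * a ^ 3 - 20 * X * a * b ^ 2 - 27 * b ^ 3) * dM a b = (64 * X ^ 3 + 27) * b ^ 7 := by
  rw [dN, dM]
  ring

lemma disc_ne : (64 * X ^ 3 + 27 : K[X]) ≠ 0 := by
  intro h
  have h0 := congrArg (Polynomial.eval 0) h
  have h1 := congrArg (Polynomial.eval 1) h
  simp at h0 h1
  have h2 : (1 : K) = 0 := by
    linear_combination 19 * h0 - 8 * (h1 - h0)
  exact one_ne_zero h2

lemma dN_isCoprime {a b : K[X]} (hab : IsCoprime a b) : IsCoprime (dN a b) b := by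
  have h1 : dN a b = a ^ 4 + b * (-(2 * X * a ^ 2 * b) - 2 * a * b ^ 2 + X ^ 2 * b ^ 3) := by
    rw [dN]; ring
  rw [h1]
  exact IsCoprime.add_mul_left_left (IsCoprime.pow_left hab) _

lemma dN_natDegree {a b : K[X]} (hab : b.natDegree < a.natDegree) :
    (dN a b).natDegree = 4 * a.natDegree := by
  have ha : a ≠ 0 := by rintro rfl; simp at hab
  have h4 : (a ^ 4).natDegree = 4 * a.natDegree := natDegree_pow a 4
  have hlt : (-(2 * X * a ^ 2 * b ^ 2) - 2 * a * b ^ 3 + X ^ 2 * b ^ 4).natDegree <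
      (a ^ 4).natDegree := by
    rw [h4]
    have e1 : (-(2 * X * a ^ 2 * b ^ 2)).natDegree ≤ 1 + 2 * a.natDegree + 2 * b.natDegree := by
      rw [natDegree_neg]
      have : (2 * X * a ^ 2 * b ^ 2 : K[X]) = C 2 * (X * a ^ 2 * b ^ 2) := by
        rw [map_ofNat]; ring
      rw [this]
      refine (natDegree_C_mul_le _ _).trans ?_
      refine (natDegree_mul_le).trans (add_le_add ((natDegree_mul_le).trans (add_le_add ?_ ?_)) ?_)
      · exact natDegree_X_le
      · exact natDegree_pow_le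
      · exact natDegree_pow_le
    have e2 : (2 * a * b ^ 3).natDegree ≤ a.natDegree + 3 * b.natDegree := by
      have : (2 * a * b ^ 3 : K[X]) = C 2 * (a * b ^ 3) := by
        rw [map_ofNat]; ring
      rw [this]
      refine (natDegree_C_mul_le _ _).trans ?_
      exact (natDegree_mul_le).trans (add_le_add le_rfl natDegree_pow_le)
    have e3 : (X ^ 2 * b ^ 4).natDegree ≤ 2 + 4 * b.natDegree := by
      refine (natDegree_mul_le).trans (add_le_add ?_ natDegree_pow_le)
      exact (natDegree_X_pow_le 2)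
    refine lt_of_le_of_lt (natDegree_add_le _ _) (max_lt (lt_of_le_of_lt
      (natDegree_sub_le _ _) (max_lt ?_ ?_)) ?_) <;> omega
  have h1 : dN a b = a ^ 4 + (-(2 * X * a ^ 2 * b ^ 2) - 2 * a * b ^ 3 + X ^ 2 * b ^ 4) := by
    rw [dN]; ring
  rw [h1, natDegree_add_eq_left_of_natDegree_lt hlt, h4]

lemma dM_natDegree {a b : K[X]} (hab : b.natDegree < a.natDegree) :
    (dM a b).natDegree < 4 * a.natDegree := by
  have e1 : (4 * a ^ 3 : K[X]).natDegree ≤ 3 * a.natDegree := by
    have : (4 * a ^ 3 : K[X]) = C 4 * (a ^ 3) := by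
      rw [map_ofNat]
    rw [this]
    exact (natDegree_C_mul_le _ _).trans natDegree_pow_le
  have e2 : (4 * X * a * b ^ 2 : K[X]).natDegree ≤ 1 + a.natDegree + 2 * b.natDegree := by
    have : (4 * X * a * b ^ 2 : K[X]) = C 4 * (X * a * b ^ 2) := by
      rw [map_ofNat]; ring
    rw [this]
    refine (natDegree_C_mul_le _ _).trans ?_
    refine (natDegree_mul_le).trans (add_le_add ((natDegree_mul_le).trans (add_le_add ?_ ?_)) ?_)
    · exact natDegree_X_le
    · exact le_rfl
    · exact natDegree_pow_le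
  have e3 : (b ^ 3).natDegree ≤ 3 * b.natDegree := natDegree_pow_le
  have e4 : (4 * a ^ 3 + 4 * X * a * b ^ 2 + b ^ 3 : K[X]).natDegree ≤ 3 * a.natDegree := by
    refine (natDegree_add_le _ _).trans (max_le ((natDegree_add_le _ _).trans (max_le ?_ ?_)) ?_)
      <;> omega
  rw [dM]
  have := natDegree_mul_le (p := b) (q := 4 * a ^ 3 + 4 * X * a * b ^ 2 + b ^ 3)
  omega

lemma dM_ne_zero {a b : K[X]} (hcop : IsCoprime a b) (hab : b.natDegree < a.natDegree)
    (hb : b ≠ 0) : dM a b ≠ 0 := by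
  refine mul_ne_zero hb ?_
  intro h
  have h1 : a ∣ b ^ 3 := ⟨-(4 * a ^ 2 + 4 * X * b ^ 2), by linear_combination h⟩
  have h2 : IsUnit a := (IsCoprime.pow_right hcop).isUnit_of_dvd' (dvd_refl a) h1
  have := natDegree_eq_zero_of_isUnit h2
  omega

/-- one duplication step in lowest terms -/
lemma dup_step {a b : K[X]} (hcop : IsCoprime a b) (hab : b.natDegree < a.natDegree) (hb : b ≠ 0) :
    ∃ a' b' g : K[X], g ≠ 0 ∧ IsCoprime a' b' ∧ b' ≠ 0 ∧ dN a b = g * a' ∧ dM a b = g * b' ∧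
      b'.natDegree < a'.natDegree ∧ 4 * a.natDegree ≤ a'.natDegree + 3 := by
  classical
  have hM := dM_ne_zero hcop hab hb
  have hNd := dN_natDegree hab
  have hMd := dM_natDegree hab
  set g := EuclideanDomain.gcd (dN a b) (dM a b) with hg
  have hg0 : g ≠ 0 := by
    intro h
    exact hM (EuclideanDomain.gcd_eq_zero_iff.mp h).2
  obtain ⟨a', ha'⟩ := EuclideanDomain.gcd_dvd_left (dN a b) (dM a b)
  obtain ⟨b', hb'⟩ := EuclideanDomain.gcd_dvd_right (dN a b) (dM a b)
  rw [← hg] at ha' hb'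
  have hb'0 : b' ≠ 0 := by
    rintro rfl
    exact hM (by rw [hb', mul_zero])
  have ha'0 : a' ≠ 0 := by
    rintro rfl
    rw [mul_zero] at ha'
    rw [ha', natDegree_zero] at hNd
    omega
  have hcop' : IsCoprime a' b' := by
    have h1 := EuclideanDomain.gcd_eq_gcd_ab (dN a b) (dM a b)
    rw [← hg] at h1
    generalize EuclideanDomain.gcdA (dN a b) (dM a b) = r at h1
    generalize EuclideanDomain.gcdB (dN a b) (dM a b) = s at h1
    refine ⟨r, s, mul_left_cancel₀ hg0 ?_⟩
    linear_combination -h1 - r * ha' - s * hb'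
  have hgd : g.natDegree ≤ 3 := by
    have h1 : IsCoprime g b := IsCoprime.of_isCoprime_of_dvd_left (dN_isCoprime hcop) ⟨a', ha'⟩
    have h2 : g ∣ (64 * X ^ 3 + 27) * b ^ 7 :=
      ⟨b * (48 * a ^ 2 + 64 * X * b ^ 2) * a' -
        (12 * a ^ 3 - 20 * X * a * b ^ 2 - 27 * b ^ 3) * b', by
        rw [← dbezout, ha', hb']; ring⟩
    have h3 : g ∣ 64 * X ^ 3 + 27 := (IsCoprime.pow_right h1).dvd_of_dvd_mul_right h2
    refine (natDegree_le_of_dvd h3 disc_ne).trans ?_
    have e1 : (64 * X ^ 3 + 27 : K[X]) = C 64 * X ^ 3 + C 27 := by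
      rw [map_ofNat, map_ofNat]
    rw [e1]
    exact natDegree_add_C.trans_le (natDegree_C_mul_X_pow_le _ _)
  have d1 : (dN a b).natDegree = g.natDegree + a'.natDegree := by
    rw [ha', natDegree_mul hg0 ha'0]
  have d2 : (dM a b).natDegree = g.natDegree + b'.natDegree := by
    rw [hb', natDegree_mul hg0 hb'0]
  exact ⟨a', b', g, hg0, hcop', hb'0, ha', hb', by omega, by omega⟩

end Dup

section Sigma

variable {K : Type*} [Field K] {F : Type*} [Field F] [Algebra K F] {t : F}

lemma aeval_ne (ht : Transcendental K t) {p : K[X]} (hp : p ≠ 0) : aeval t p ≠ 0 := fun h =>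
  hp (transcendental_iff_injective.mp ht (by rw [h, map_zero]))

lemma disc_t_ne (ht : Transcendental K t) : 64 * t ^ 3 + 27 ≠ 0 := by
  have := aeval_ne ht (disc_ne (K := K))
  simpa only [map_add, map_mul, map_pow, map_ofNat, aeval_X] using this

/-- the section `(0, 0)` -/
noncomputable def sg (ht : 64 * t ^ 3 + 27 ≠ 0) : (EC t).Point :=
  Point.some 0 0 (EC_nonsing ht (by ring))

lemma two_pow_sg [DecidableEq F] (ht : Transcendental K t) (k : ℕ) :
    ∃ a b : K[X], IsCoprime a b ∧ b ≠ 0 ∧ b.natDegree < a.natDegree ∧ 4 ^ k < a.natDegree ∧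
      ∃ y h, (2 ^ (k + 1)) • sg (disc_t_ne ht) = Point.some (aeval t a / aeval t b) y h := by
  induction k with
  | zero =>
    refine ⟨X ^ 2, 1, isCoprime_one_right, one_ne_zero, by simp, by simp, ?_⟩
    have h0 : (4 * (0 : F) ^ 3 + 4 * t * 0 + 1) ≠ 0 := by simp
    obtain ⟨y, h, e⟩ := dbl_xc (EC_nonsing (disc_t_ne ht) (by ring : (0 : F) ^ 2 + 0 = 0 ^ 3 + t * 0))
      h0
    have e1 : (((0 : F) ^ 4 - 2 * t * 0 ^ 2 - 2 * 0 + t ^ 2) / (4 * 0 ^ 3 + 4 * t * 0 + 1)) =
        aeval t (X ^ 2 : K[X]) / aeval t (1 : K[X]) := by simp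
    have e2 : (2 ^ (0 + 1)) • sg (disc_t_ne ht) = sg (disc_t_ne ht) + sg (disc_t_ne ht) := by
      rw [zero_add, pow_one, two_nsmul]
    rw [e2, ← e1]
    exact ⟨y, h, e⟩
  | succ k ih =>
    obtain ⟨a, b, hcop, hb, hab, hk, y, h, e⟩ := ih
    obtain ⟨a', b', g, hg, hcop', hb', hN, hM, hab', hd⟩ := dup_step hcop hab hb
    refine ⟨a', b', hcop', hb', hab', by rw [pow_succ]; omega, ?_⟩
    have hbt := aeval_ne ht hb
    have hgt := aeval_ne ht hg
    have hb't := aeval_ne ht hb'
    have hMt := aeval_ne ht (dM_ne_zero hcop hab hb)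
    have e3 : aeval t (dM a b) = (aeval t b) ^ 4 *
        (4 * (aeval t a / aeval t b) ^ 3 + 4 * t * (aeval t a / aeval t b) + 1) := by
      rw [dM]
      simp only [map_mul, map_add, map_pow, map_ofNat, aeval_X]
      field_simp
    have e4 : aeval t (dN a b) = (aeval t b) ^ 4 *
        ((aeval t a / aeval t b) ^ 4 - 2 * t * (aeval t a / aeval t b) ^ 2 -
          2 * (aeval t a / aeval t b) + t ^ 2) := by
      rw [dN]
      simp only [map_mul, map_add, map_sub, map_pow, map_ofNat, aeval_X]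
      field_simp
    have h0 : 4 * (aeval t a / aeval t b) ^ 3 + 4 * t * (aeval t a / aeval t b) + 1 ≠ 0 := by
      intro h0
      rw [h0, mul_zero] at e3
      exact hMt e3
    obtain ⟨y', h', e'⟩ := dbl_xc h h0
    have e5 : (((aeval t a / aeval t b) ^ 4 - 2 * t * (aeval t a / aeval t b) ^ 2 -
          2 * (aeval t a / aeval t b) + t ^ 2) /
        (4 * (aeval t a / aeval t b) ^ 3 + 4 * t * (aeval t a / aeval t b) + 1)) =
        aeval t a' / aeval t b' := by
      rw [div_eq_div_iff h0 hb't]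
      apply mul_left_cancel₀ (mul_ne_zero hgt (pow_ne_zero 4 hbt))
      have e6 := congrArg (aeval t) hN
      have e7 := congrArg (aeval t) hM
      rw [map_mul] at e6 e7
      rw [e4] at e6
      rw [e3] at e7
      linear_combination (aeval t g * aeval t b') * e6 - (aeval t g * aeval t a') * e7
    have e8 : (2 ^ (k + 1 + 1)) • sg (disc_t_ne ht) =
        (2 ^ (k + 1)) • sg (disc_t_ne ht) + (2 ^ (k + 1)) • sg (disc_t_ne ht) := by
      rw [← two_nsmul, smul_smul, ← pow_succ']
    rw [e8, e, ← e5]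
    exact ⟨y', h', e'⟩

end Sigma

end Pool.Agent.H950R2.Sil
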