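import Mathlib
import Pool.Agent.H950R2.Sil.Sigma

set_option autoImplicit false

/-! # Heights of composites -/

namespace Pool.Agent.H950R2.Sil

open WeierstrassCurve WeierstrassCurve.Affine

section Comp

variable {K : Type*} [Field K] {σ : Type*}

/-- the form `Σ pᵢ uⁱ v^(N - i)` -/
noncomputable def hm (u v : MvPolynomial σ K) (N : ℕ) (p : Polynomial K) : MvPolynomial σ K :=
  ∑ i ∈ Finset.range (N + 1), MvPolynomial.C (p.coeff i) * u ^ i * v ^ (N - i)

lemma algebraMap_C (c : K) : ι (MvPolynomial.C c : MvPolynomial σ K) = algebraMap K (FF σ K) c := by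
  rw [ι, ← MvPolynomial.algebraMap_eq, ← IsScalarTower.algebraMap_apply]

lemma ι_hm {u v : MvPolynomial σ K} (hv : v ≠ 0) {N : ℕ} {p : Polynomial K}
    (hp : p.natDegree ≤ N) :
    ι (hm u v N p) = (ι v) ^ N * Polynomial.aeval (ι u / ι v : FF σ K) p := by
  have hv' := ι_ne_zero hv
  rw [Polynomial.aeval_eq_sum_range' (Nat.lt_succ_of_le hp), Finset.mul_sum, hm, ι, map_sum]
  refine Finset.sum_congr rfl fun i hi => ?_
  have hiN : i ≤ N := Nat.lt_succ_iff.mp (Finset.mem_range.mp hi)
  have e1 : (ι v : FF σ K) ^ N = ι v ^ (N - i) * ι v ^ i := by rw [← pow_add, Nat.sub_add_cancel hiN]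
  rw [map_mul, map_mul, map_pow, map_pow, e1]
  have e2 := algebraMap_C (σ := σ) (p.coeff i)
  simp only [ι] at e2 hv' ⊢
  rw [e2, Algebra.smul_def, div_pow]
  field_simp

lemma hm_split (u v : MvPolynomial σ K) (N : ℕ) (p : Polynomial K) :
    hm u v N p = (∑ i ∈ Finset.range N, MvPolynomial.C (p.coeff i) * u ^ i * v ^ (N - i)) +
      MvPolynomial.C (p.coeff N) * u ^ N := by
  rw [hm, Finset.sum_range_succ, Nat.sub_self, pow_zero, mul_one]

lemma dvd_hm_low (u v : MvPolynomial σ K) (N : ℕ) (p : Polynomial K) :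
    v ∣ ∑ i ∈ Finset.range N, MvPolynomial.C (p.coeff i) * u ^ i * v ^ (N - i) := by
  refine Finset.dvd_sum fun i hi => Dvd.dvd.mul_left ?_ _
  have : i < N := Finset.mem_range.mp hi
  exact dvd_pow_self v (by omega)

lemma tdeg_pow {u : MvPolynomial σ K} (hu : u ≠ 0) (N : ℕ) :
    (u ^ N).totalDegree = N * u.totalDegree := by
  induction N with
  | zero => simp
  | succ N ih => rw [pow_succ, tdeg_mul (pow_ne_zero N hu) hu, ih]; ring

lemma hm_deg {u v : MvPolynomial σ K} (hd : v.totalDegree < u.totalDegree) {N : ℕ} (hN : 1 ≤ N)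
    {p : Polynomial K} (hp : p.coeff N ≠ 0) :
    (hm u v N p).totalDegree = N * u.totalDegree := by
  have hu : u ≠ 0 := by rintro rfl; simp at hd
  have e1 : (MvPolynomial.C (p.coeff N) * u ^ N).totalDegree = N * u.totalDegree := by
    rw [tdeg_mul (by rwa [Ne, MvPolynomial.C_eq_zero]) (pow_ne_zero N hu), tdeg_pow hu,
      MvPolynomial.totalDegree_C, zero_add]
  have e2 : (∑ i ∈ Finset.range N, MvPolynomial.C (p.coeff i) * u ^ i * v ^ (N - i)).totalDegree <
      (MvPolynomial.C (p.coeff N) * u ^ N).totalDegree := by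
    rw [e1]
    have hpos : 0 < N * u.totalDegree := by
      have : 0 < u.totalDegree := by omega
      positivity
    refine lt_of_le_of_lt (MvPolynomial.totalDegree_finsetSum _ _) ?_
    rw [Finset.sup_lt_iff hpos]
    intro i hi
    have hi' : i < N := Finset.mem_range.mp hi
    have h1 : (MvPolynomial.C (p.coeff i) * u ^ i * v ^ (N - i)).totalDegree ≤
        0 + i * u.totalDegree + (N - i) * v.totalDegree :=
      dg_mul (dg_mul (by rw [MvPolynomial.totalDegree_C]) (dg_pow le_rfl i)) (dg_pow le_rfl _)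
    refine lt_of_le_of_lt h1 ?_
    obtain ⟨j, rfl⟩ : ∃ j, N = i + j := ⟨N - i, by omega⟩
    rw [Nat.add_sub_cancel_left, zero_add, add_mul]
    have hj : 0 < j := by omega
    have := Nat.mul_lt_mul_of_pos_left hd hj
    omega
  rw [hm_split, MvPolynomial.totalDegree_add_eq_right_of_totalDegree_lt e2, e1]

lemma hm_relPrime {u v : MvPolynomial σ K} (hv : v ≠ 0) (huv : IsRelPrime u v)
    {a b : Polynomial K} (hcop : IsCoprime a b) (hab : b.natDegree ≤ a.natDegree) (ha : a ≠ 0) :
    IsRelPrime (hm u v a.natDegree a) (hm u v a.natDegree b) := by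
  have hlc : a.coeff a.natDegree ≠ 0 := Polynomial.leadingCoeff_ne_zero.mpr ha
  obtain ⟨r, s, hrs⟩ := hcop
  set N := a.natDegree with hN
  set M := max r.natDegree s.natDegree with hM
  have key : hm u v M r * hm u v N a + hm u v M s * hm u v N b = v ^ (M + N) := by
    apply ι_inj
    have e1 := ι_hm (u := u) hv (le_refl a.natDegree)
    have e2 := ι_hm (u := u) hv hab
    have e3 := ι_hm (u := u) hv (le_max_left r.natDegree s.natDegree)
    have e4 := ι_hm (u := u) hv (le_max_right r.natDegree s.natDegree)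
    rw [← hM] at e3 e4
    have e5 := congrArg (Polynomial.aeval (ι u / ι v : FF σ K)) hrs
    rw [map_add, map_mul, map_mul, map_one] at e5
    simp only [ι] at e1 e2 e3 e4 e5 ⊢
    rw [map_add, map_mul, map_mul, e1, e2, e3, e4, map_pow, pow_add]
    linear_combination (algebraMap (MvPolynomial σ K) (FF σ K) v ^ M *
      algebraMap (MvPolynomial σ K) (FF σ K) v ^ N) * e5
  have hne : hm u v N a ≠ 0 ∨ IsUnit v := by
    by_cases h : hm u v N a = 0
    · right
      rw [hm_split] at h
      have h1 : v ∣ MvPolynomial.C (a.coeff N) * u ^ N := by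
        have := dvd_hm_low u v N a
        rw [← dvd_add_right this, h]
        exact dvd_zero v
      have h2 : IsUnit (MvPolynomial.C (a.coeff N) : MvPolynomial σ K) :=
        (isUnit_iff_ne_zero.mpr hlc).map MvPolynomial.C
      have h3 : v ∣ u ^ N := (h2.dvd_mul_left).mp h1
      exact (IsRelPrime.pow_right (huv.symm)).isUnit_of_dvd h3
    · left; exact h
  rcases hne with hne | hvu
  · rw [UniqueFactorizationMonoid.isRelPrime_iff_no_prime_factors hne]
    intro π h1 h2 hπ
    have h3 : π ∣ v ^ (M + N) := by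
      rw [← key]
      exact dvd_add (Dvd.dvd.mul_left h1 _) (Dvd.dvd.mul_left h2 _)
    have h4 : π ∣ v := hπ.dvd_of_dvd_pow h3
    rw [hm_split] at h1
    have h5 : π ∣ MvPolynomial.C (a.coeff N) * u ^ N :=
      (dvd_add_right (h4.trans (dvd_hm_low u v N a))).mp h1
    have h2 : IsUnit (MvPolynomial.C (a.coeff N) : MvPolynomial σ K) :=
      (isUnit_iff_ne_zero.mpr hlc).map MvPolynomial.C
    have h6 : π ∣ u ^ N := (h2.dvd_mul_left).mp h5
    exact hπ.not_isUnit (huv (hπ.dvd_of_dvd_pow h6) h4)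
  · intro d h1 h2
    have h3 : d ∣ v ^ (M + N) := by
      rw [← key]
      exact dvd_add (Dvd.dvd.mul_left h1 _) (Dvd.dvd.mul_left h2 _)
    exact isUnit_of_dvd_unit h3 (hvu.pow _)

/-- **Height of a composite.** -/
lemma le_ht_comp {u v : MvPolynomial σ K} (hv : v ≠ 0) (huv : IsRelPrime u v)
    (hd : v.totalDegree < u.totalDegree) {a b : Polynomial K} (hcop : IsCoprime a b)
    (hab : b.natDegree < a.natDegree) :
    a.natDegree ≤ ht (Polynomial.aeval (ι u / ι v : FF σ K) a /
      Polynomial.aeval (ι u / ι v : FF σ K) b) := by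
  have ha : a ≠ 0 := by rintro rfl; simp at hab
  have hrel := hm_relPrime hv huv hcop hab.le ha
  have hv' := ι_ne_zero hv
  have e1 := ι_hm (u := u) hv (le_refl a.natDegree)
  have e2 := ι_hm (u := u) hv hab.le
  have hdeg := hm_deg (p := a) hd (N := a.natDegree) (by omega)
    (Polynomial.leadingCoeff_ne_zero.mpr ha)
  have hu0 : 1 ≤ u.totalDegree := by omega
  have hbne : hm u v a.natDegree b ≠ 0 := by
    intro h
    rw [h] at hrel
    have h1 : IsUnit (hm u v a.natDegree a) := hrel (dvd_refl _) (dvd_zero _)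
    have h2 := MvPolynomial.isUnit_iff_totalDegree_of_isReduced.mp h1
    rw [hdeg] at h2
    have : 0 < a.natDegree * u.totalDegree := Nat.mul_pos (by omega) hu0
    omega
  have e3 : Polynomial.aeval (ι u / ι v : FF σ K) a / Polynomial.aeval (ι u / ι v : FF σ K) b =
      ι (hm u v a.natDegree a) / ι (hm u v a.natDegree b) := by
    rw [e1, e2, mul_div_mul_left _ _ (pow_ne_zero _ hv')]
  have h3 := (le_ht hbne hrel e3).1
  rw [hdeg] at h3
  calc a.natDegree = a.natDegree * 1 := (mul_one _).symm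
    _ ≤ a.natDegree * u.totalDegree := Nat.mul_le_mul_left _ hu0
    _ ≤ _ := h3

end Comp

end Pool.Agent.H950R2.Sil
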