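import Mathlib
import Pool.Agent.H950R2.Sil.Comp

set_option autoImplicit false

/-! # Rational coordinates on pairs of points of the curves `y² + y = x³ + t x` -/

namespace Pool.Agent.H950R2.Sil

open WeierstrassCurve WeierstrassCurve.Affine

section General

variable {F : Type*} [Field F]

/-- first coordinate of the first point -/
def xf (a m n : F) : F := -(a * n ^ 2 + a ^ 2 * (m - n) + 1) / (m + n - 2 * a)

/-- the parameter of the curve through the points -/
def tf (a m n : F) : F := m ^ 2 * xf a m n + m - xf a m n ^ 2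

variable {a m n : F}

lemma xf_mul (h : m + n - 2 * a ≠ 0) :
    (m + n - 2 * a) * xf a m n = -(a * n ^ 2 + a ^ 2 * (m - n) + 1) := by
  rw [xf]; field_simp

lemma xf_sub (h : m + n - 2 * a ≠ 0) : xf a m n - xf a n m = a * (m - n) := by
  have h' : n + m - 2 * a ≠ 0 := by rwa [add_comm n m]
  have e1 := xf_mul h
  have e2 := xf_mul h'
  apply mul_left_cancel₀ h
  linear_combination e1 - e2

lemma tf_comm (h : m + n - 2 * a ≠ 0) : tf a m n = tf a n m := by
  have h' : n + m - 2 * a ≠ 0 := by rwa [add_comm n m]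
  have e1 := xf_mul h
  have e3 := xf_sub h
  rw [tf, tf]
  have e4 : xf a n m = xf a m n - a * (m - n) := by linear_combination -e3
  rw [e4]
  linear_combination (m - n) * e1

/-- recognition of the coordinates -/
lemma xf_eq (h : m + n - 2 * a ≠ 0) (hmn : m ≠ n) {x y : F} (hxy : x - y = a * (m - n))
    (ht : m ^ 2 * x + m - x ^ 2 = n ^ 2 * y + n - y ^ 2) : xf a m n = x := by
  rw [xf, div_eq_iff h]
  have hy : y = x - a * (m - n) := by linear_combination -hxy
  subst hy
  apply mul_left_cancel₀ (sub_ne_zero.mpr hmn)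
  linear_combination -ht

/-! The first involution. -/

/-- new slope after replacing the first point `P` by `-P - S` -/
def ai (a m n : F) : F := (m ^ 2 - xf a m n - xf a n m) / (m - n)

lemma ai_eqs (h : m + n - 2 * a ≠ 0) (hmn : m ≠ n) (h' : m + n - 2 * ai a m n ≠ 0) :
    xf (ai a m n) m n = m ^ 2 - xf a m n ∧ xf (ai a m n) n m = xf a n m ∧
      tf (ai a m n) m n = tf a m n ∧ ai (ai a m n) m n = a := by
  have hd : m - n ≠ 0 := sub_ne_zero.mpr hmn
  have ht := tf_comm h
  rw [tf, tf] at ht
  have e1 : xf (ai a m n) m n = m ^ 2 - xf a m n := by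
    refine xf_eq h' hmn (y := xf a n m) ?_ ?_
    · rw [ai]; field_simp
    · linear_combination ht
  have e2 : xf (ai a m n) n m = xf a n m := by
    refine xf_eq (by rwa [add_comm n m]) hmn.symm (y := m ^ 2 - xf a m n) ?_ ?_
    · rw [ai]; field_simp; ring
    · linear_combination -ht
  refine ⟨e1, e2, ?_, ?_⟩
  · rw [tf, e1, tf]; ring
  · rw [ai, e1, e2, div_eq_iff hd]
    linear_combination xf_sub h

lemma ai_disc (h : m + n - 2 * a ≠ 0) (hmn : m ≠ n) :
    (m + n - 2 * ai a m n) * ((m - n) * (m + n - 2 * a)) =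
      -((m ^ 2 + n ^ 2) * (m + n) + 4) := by
  have h' : n + m - 2 * a ≠ 0 := by rwa [add_comm n m]
  have hd : m - n ≠ 0 := sub_ne_zero.mpr hmn
  have e1 := xf_mul h
  have e2 := xf_mul h'
  have e3 : ai a m n * (m - n) = m ^ 2 - xf a m n - xf a n m := by rw [ai]; field_simp
  linear_combination (-2 * (m + n - 2 * a)) * e3 + 2 * e1 + 2 * e2

/-! The second involution. -/

/-- new second coordinate after replacing the first point `P` by `-P - Q - S` -/
def mj (a m n : F) : F := a - n - xf a m n / a

lemma mj_eqs (h : m + n - 2 * a ≠ 0) (ha : a ≠ 0) (h1 : mj a m n ≠ n)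
    (h' : mj a m n + n - 2 * a ≠ 0) :
    xf a (mj a m n) n = xf a m n + a * (mj a m n - m) ∧ xf a n (mj a m n) = xf a n m ∧
      tf a (mj a m n) n = tf a m n ∧ mj a (mj a m n) n = m := by
  have e0 := xf_mul h
  have hs := xf_sub h
  have ht := tf_comm h
  have e3 : a * mj a m n = a ^ 2 - a * n - xf a m n := by rw [mj]; field_simp
  generalize mj a m n = p at *
  have hx : xf a m n = a ^ 2 - a * n - a * p := by linear_combination e3
  have hy : xf a n m = a ^ 2 - a * m - a * p := by linear_combination hx - hs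
  -- the relation between `a, m, n, p`
  have hrel : (m + n - 2 * a) * (a ^ 2 - a * n - a * p) =
      -(a * n ^ 2 + a ^ 2 * (m - n) + 1) := by rw [← hx]; exact e0
  have e4 : tf a m n = n ^ 2 * xf a n m + n - xf a n m ^ 2 := by rw [ht, tf]
  rw [tf] at e4
  have e1 : xf a p n = xf a m n + a * (p - m) := by
    refine xf_eq h' h1 (y := xf a n m) ?_ ?_
    · rw [hx, hy]; ring
    · rw [hx, hy]
      rw [hx, hy] at e4
      linear_combination (p - n) * hrel
  have e2 : xf a n p = xf a n m := by
    refine xf_eq (by rwa [add_comm n p]) h1.symm (y := xf a m n + a * (p - m)) ?_ ?_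
    · rw [hx, hy]; ring
    · rw [hx, hy]
      linear_combination (n - p) * hrel
  refine ⟨e1, e2, ?_, ?_⟩
  · rw [tf, e1, tf, hx]
    linear_combination (p - m) * hrel
  · rw [mj, e1, hx]
    field_simp
    ring

lemma mj_disc (h : m + n - 2 * a ≠ 0) (ha : a ≠ 0) :
    (mj a m n + n - 2 * a) * (a * (m + n - 2 * a)) =
      a * n ^ 2 - 2 * a ^ 2 * n + 2 * a ^ 3 + 1 ∧
    (mj a m n - n) * (a * (m + n - 2 * a)) =
      (a ^ 2 - 2 * a * n) * (m + n - 2 * a) + (a * n ^ 2 + a ^ 2 * (m - n) + 1) := by
  have e0 := xf_mul h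
  have e3 : a * mj a m n = a ^ 2 - a * n - xf a m n := by rw [mj]; field_simp
  constructor
  · linear_combination (m + n - 2 * a) * e3 - e0
  · linear_combination (m + n - 2 * a) * e3 - e0

end General

end Pool.Agent.H950R2.Sil
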