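import Mathlib
import Pool.Agent.H950R2.Sil.Maps

set_option autoImplicit false

/-! # The group law in the rational coordinates -/

namespace Pool.Agent.H950R2.Sil

open WeierstrassCurve WeierstrassCurve.Affine

section General

variable {F : Type*} [Field F] {t : F}

lemma on_curve {m x : F} (h : m ^ 2 * x + m - x ^ 2 = t) :
    (m * x) ^ 2 + m * x = x ^ 3 + t * x := by
  rw [← h]; ring

/-- the point with first coordinate `x` on the line `y = m x` -/
noncomputable def pt (hΔ : 64 * t ^ 3 + 27 ≠ 0) (m x : F) (h : m ^ 2 * x + m - x ^ 2 = t) :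
    (EC t).Point := Point.some x (m * x) (EC_nonsing hΔ (on_curve h))

lemma pt_congr {hΔ : 64 * t ^ 3 + 27 ≠ 0} {m x m' x' : F} {h : m ^ 2 * x + m - x ^ 2 = t}
    {h' : m' ^ 2 * x' + m' - x' ^ 2 = t} (hm : m = m') (hx : x = x') :
    pt hΔ m x h = pt hΔ m' x' h' := by
  subst hm hx; rfl

lemma some_congr {W : WeierstrassCurve.Affine F} {x y x' y' : F} {h : W.Nonsingular x y}
    {h' : W.Nonsingular x' y'} (hx : x = x') (hy : y = y') :
    Point.some x y h = Point.some x' y' h' := by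
  subst hx hy; rfl

section

variable [DecidableEq F]

lemma pt_neg_sub_sg (hΔ : 64 * t ^ 3 + 27 ≠ 0) {m x : F} (h : m ^ 2 * x + m - x ^ 2 = t)
    (hx : x ≠ 0) (h' : m ^ 2 * (m ^ 2 - x) + m - (m ^ 2 - x) ^ 2 = t) :
    -pt hΔ m x h - sg hΔ = pt hΔ m (m ^ 2 - x) h' := by
  have h1 := EC_nonsing hΔ (on_curve h)
  have h0 := EC_nonsing hΔ (by ring : (0 : F) ^ 2 + 0 = 0 ^ 3 + t * 0)
  obtain ⟨g1, e1⟩ := add_val h1 h0 hx (l := m) (x := m ^ 2 - x) (by ring) (by ring) rfl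
  obtain ⟨g2, e2⟩ := neg_val g1 (y := m * (m ^ 2 - x)) (by ring)
  have e3 : -pt hΔ m x h - sg hΔ = -(pt hΔ m x h + sg hΔ) := by abel
  rw [e3]
  change -(Point.some x (m * x) h1 + Point.some 0 0 h0) = _
  rw [e1, e2]
  rfl

lemma pt_add {a m n : F} (hΔ : 64 * t ^ 3 + 27 ≠ 0)
    (h1 : m ^ 2 * xf a m n + m - xf a m n ^ 2 = t) (h2 : n ^ 2 * xf a n m + n - xf a n m ^ 2 = t)
    (hD : m + n - 2 * a ≠ 0) (ha : a ≠ 0) (hmn : m ≠ n) {p x : F} (hp : p = mj a m n)
    (hx : x = p ^ 2 - xf a m n - a * (p - m)) (h3 : p ^ 2 * x + p - x ^ 2 = t) :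
    pt hΔ m (xf a m n) h1 + pt hΔ n (xf a n m) h2 = pt hΔ p x h3 := by
  have hs := xf_sub hD
  have e0 := xf_mul hD
  have e3 : a * p = a ^ 2 - a * n - xf a m n := by rw [hp, mj]; field_simp
  have hX : xf a m n = a ^ 2 - a * n - a * p := by linear_combination e3
  have hY : xf a n m = a ^ 2 - a * m - a * p := by linear_combination hX - hs
  have hrel : (m + n - 2 * a) * (a ^ 2 - a * n - a * p) =
      -(a * n ^ 2 + a ^ 2 * (m - n) + 1) := by rw [← hX]; exact e0
  have hne : xf a m n ≠ xf a n m := by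
    intro h
    rw [h, sub_self] at hs
    exact (mul_ne_zero ha (sub_ne_zero.mpr hmn)) hs.symm
  obtain ⟨g1, e1⟩ := add_val (EC_nonsing hΔ (on_curve h1)) (EC_nonsing hΔ (on_curve h2)) hne
    (l := a - p) (x := x) (y := p * x) (by rw [hX, hY]; ring) (by rw [hx, hX, hY]; ring) (by
      rw [hx, hX]
      linear_combination hrel)
  exact e1

omit [DecidableEq F] in
lemma EC_map (φ : F →+* F) (h : φ t = t) : (EC t).map φ = EC t := by
  ext <;> simp [EC, h]

omit [DecidableEq F] in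
lemma nonsing_map (φ : F →+* F) (h : φ t = t) (hΔ : 64 * t ^ 3 + 27 ≠ 0) {x y : F}
    (hn : (EC t).Nonsingular x y) : (EC t).Nonsingular (φ x) (φ y) := by
  refine EC_nonsing hΔ ?_
  have := congrArg φ ((EC_eqn x y).mp hn.1)
  simpa only [map_add, map_mul, map_pow, h] using this

/-- the additive map induced by a field endomorphism fixing `t` -/
noncomputable def pm (φ : F →+* F) (h : φ t = t) (hΔ : 64 * t ^ 3 + 27 ≠ 0) :
    (EC t).Point →+ (EC t).Point where
  toFun P := match P with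
    | 0 => 0
    | .some x y hn => .some (φ x) (φ y) (nonsing_map φ h hΔ hn)
  map_zero' := rfl
  map_add' := by
    have hW := EC_map φ h
    rintro (_ | ⟨x₁, y₁, h₁⟩) (_ | ⟨x₂, y₂, h₂⟩)
    any_goals rfl
    by_cases hxy : x₁ = x₂ ∧ y₁ = (EC t).negY x₂ y₂
    · rw [Point.add_of_Y_eq hxy.1 hxy.2]
      refine (Point.add_of_Y_eq (congrArg φ hxy.1) ?_).symm
      have := map_negY (W' := EC t) φ x₂ y₂
      rw [hW] at this
      rw [this, hxy.2]
    · have hxy' : ¬ (φ x₁ = φ x₂ ∧ φ y₁ = (EC t).negY (φ x₂) (φ y₂)) := by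
        rintro ⟨e1, e2⟩
        apply hxy
        have := map_negY (W' := EC t) φ x₂ y₂
        rw [hW] at this
        rw [this] at e2
        exact ⟨φ.injective e1, φ.injective e2⟩
      rw [Point.add_some hxy]
      change Point.some _ _ _ = Point.some (φ x₁) (φ y₁) _ + Point.some (φ x₂) (φ y₂) _
      rw [Point.add_some hxy']
      have s1 := map_slope (W := EC t) φ x₁ x₂ y₁ y₂
      rw [hW] at s1
      have s2 := map_addX (W' := EC t) φ x₁ x₂ ((EC t).slope x₁ x₂ y₁ y₂)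
      rw [hW, ← s1] at s2
      have s3 := map_addY (W' := EC t) φ x₁ y₁ x₂ ((EC t).slope x₁ x₂ y₁ y₂)
      rw [hW, ← s1] at s3
      exact some_congr s2.symm s3.symm

lemma pm_pt {φ : F →+* F} {h : φ t = t} {hΔ : 64 * t ^ 3 + 27 ≠ 0} {m x m' x' : F}
    {h1 : m ^ 2 * x + m - x ^ 2 = t} {h2 : m' ^ 2 * x' + m' - x' ^ 2 = t} (hm : φ m = m')
    (hx : φ x = x') : pm φ h hΔ (pt hΔ m x h1) = pt hΔ m' x' h2 := by
  subst hm hx
  exact some_congr rfl (map_mul φ m x)

lemma pm_sg {φ : F →+* F} {h : φ t = t} {hΔ : 64 * t ^ 3 + 27 ≠ 0} :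
    pm φ h hΔ (sg hΔ) = sg hΔ := some_congr (map_zero φ) (map_zero φ)

lemma xc_pm {φ : F →+* F} {h : φ t = t} {hΔ : 64 * t ^ 3 + 27 ≠ 0} (P : (EC t).Point) :
    xc (pm φ h hΔ P) = φ (xc P) := by
  rcases P with _ | ⟨x, y, hn⟩
  · exact (map_zero φ).symm
  · rfl

end

end General

end Pool.Agent.H950R2.Sil
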