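import Mathlib
import Pool.Agent.H950R2.Sil.Group

set_option autoImplicit false

/-! # Endomorphisms of the function field -/

namespace Pool.Agent.H950R2.Sil

open WeierstrassCurve WeierstrassCurve.Affine

section Lift

variable {K : Type*} [Field K]

/-- the function field of affine space with coordinates -/
abbrev F3 (K : Type*) [Field K] : Type _ := FF (Fin 3) K

/-- coordinates -/
noncomputable abbrev xx (K : Type*) [Field K] (i : Fin 3) : F3 K :=
  ι (MvPolynomial.X i : MvPolynomial (Fin 3) K)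

lemma xx_indep : AlgebraicIndependent K (xx K) := by
  have h := (MvPolynomial.algebraicIndependent_X (Fin 3) K)
  exact h.map' (f := IsScalarTower.toAlgHom K (MvPolynomial (Fin 3) K) (F3 K))
    (IsFractionRing.injective (MvPolynomial (Fin 3) K) (F3 K))

lemma adjoin_eq_top {L : IntermediateField K (F3 K)} (h : ∀ i, xx K i ∈ L) : L = ⊤ := by
  rw [eq_top_iff]
  have hpoly : ∀ p : MvPolynomial (Fin 3) K, ι p ∈ L := by
    intro p
    induction p using MvPolynomial.induction_on with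
    | C a =>
      rw [algebraMap_C]
      exact L.algebraMap_mem a
    | add p q hp hq =>
      rw [ι, map_add]
      exact L.add_mem hp hq
    | mul_X p i hp =>
      rw [ι, map_mul]
      exact L.mul_mem hp (h i)
  intro z _
  obtain ⟨p, q, hq, -, hz, -, -⟩ := exists_rep z
  rw [hz]
  exact L.div_mem (hpoly p) (hpoly q)

lemma indep_of_adjoin {v : Fin 3 → F3 K}
    (h : ∀ i, xx K i ∈ IntermediateField.adjoin K (Set.range v)) : AlgebraicIndependent K v := by
  have htop := adjoin_eq_top h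
  have halg : Algebra.IsAlgebraic (IntermediateField.adjoin K (Set.range v)) (F3 K) := by
    constructor
    intro x
    have hx : x ∈ IntermediateField.adjoin K (Set.range v) := by rw [htop]; trivial
    exact isAlgebraic_algebraMap (A := F3 K)
      (⟨x, hx⟩ : IntermediateField.adjoin K (Set.range v))
  have halg' : Algebra.IsAlgebraic (Algebra.adjoin K (Set.range v)) (F3 K) :=
    IntermediateField.isAlgebraic_adjoin_iff_top.mp halg
  have hle := (xx_indep (K := K)).lift_cardinalMk_le_trdeg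
  exact (Algebra.IsAlgebraic.isTranscendenceBasis_of_lift_le_trdeg_of_finite K v hle).1

/-- the endomorphism with given values on the coordinates -/
noncomputable def lft (v : Fin 3 → F3 K) (hv : AlgebraicIndependent K v) : F3 K →ₐ[K] F3 K :=
  IsFractionRing.liftAlgHom (A := MvPolynomial (Fin 3) K) (K := F3 K)
    (g := MvPolynomial.aeval v) hv

lemma lft_xx (v : Fin 3 → F3 K) (hv : AlgebraicIndependent K v) (i : Fin 3) :
    lft v hv (xx K i) = v i := by
  rw [lft, xx, ι, IsFractionRing.liftAlgHom_apply, IsFractionRing.lift_algebraMap]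
  simp

end Lift

section Facts

lemma xQ_alg {F : Type*} [Field F] {a m n p x y : F}
    (h : p ^ 2 - x - a * (p - m) = 0)
    (e0 : (m + n - 2 * a) * x = -(a * n ^ 2 + a ^ 2 * (m - n) + 1))
    (e1 : (n + m - 2 * a) * y = -(a * m ^ 2 + a ^ 2 * (n - m) + 1))
    (hs : x - y = a * (m - n)) (e3 : a * p = a ^ 2 - a * n - x) :
    (a * n ^ 2 + a ^ 2 * (m - n) + 1) * (a * m ^ 2 + a ^ 2 * (n - m) + 1) -
      a * (m + n - 2 * a) ^ 2 = 0 := by
  have h1 : a ^ 2 * (p ^ 2 - x - a * (p - m)) = x * y - a := by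
    have h2 : a ^ 2 * (p ^ 2 - x - a * (p - m)) = (a * p) ^ 2 - a ^ 2 * x - a ^ 2 * (a * p) +
      a ^ 3 * m := by ring
    rw [h2, e3]
    have hy : y = x - a * (m - n) := by linear_combination -hs
    rw [hy]
    linear_combination a * e0
  rw [h, mul_zero] at h1
  have h3 : x * y = a := by linear_combination -h1
  have h4 : ((m + n - 2 * a) * x) * ((n + m - 2 * a) * y) = a * (m + n - 2 * a) ^ 2 := by
    linear_combination (m + n - 2 * a) ^ 2 * h3
  rw [e0, e1] at h4
  linear_combination h4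

variable (K : Type*) [Field K]

lemma ι_ne_of_eval {p : MvPolynomial (Fin 3) K} (w : Fin 3 → K)
    (h : MvPolynomial.eval w p ≠ 0) : ι p ≠ 0 :=
  ι_ne_zero (by rintro rfl; exact h (map_zero _))

lemma a_ne : xx K 0 ≠ 0 := ι_ne_of_eval K ![1, 0, 0] (by simp)

lemma mn_ne : xx K 1 ≠ xx K 2 := by
  rw [← sub_ne_zero, xx, xx, ι, ι, ← map_sub]
  exact ι_ne_of_eval K ![0, 1, 0] (by simp)

lemma D_ne : xx K 1 + xx K 2 - 2 * xx K 0 ≠ 0 := by
  have : ι (MvPolynomial.X 1 + MvPolynomial.X 2 - 2 * MvPolynomial.X 0 :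
      MvPolynomial (Fin 3) K) ≠ 0 := ι_ne_of_eval K ![0, 1, 0] (by simp)
  simpa only [ι, map_add, map_sub, map_mul, map_ofNat] using this

lemma E_ne : xx K 0 * xx K 2 ^ 2 + xx K 0 ^ 2 * (xx K 1 - xx K 2) + 1 ≠ 0 := by
  have : ι (MvPolynomial.X 0 * MvPolynomial.X 2 ^ 2 + MvPolynomial.X 0 ^ 2 *
      (MvPolynomial.X 1 - MvPolynomial.X 2) + 1 :
      MvPolynomial (Fin 3) K) ≠ 0 := ι_ne_of_eval K ![0, 0, 0] (by simp)
  simpa only [ι, map_add, map_sub, map_mul, map_pow, map_one] using this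

lemma x_ne : xf (xx K 0) (xx K 1) (xx K 2) ≠ 0 := by
  intro h
  have := xf_mul (D_ne K)
  rw [h, mul_zero] at this
  exact E_ne K (by linear_combination this)

lemma ai_ne : xx K 1 + xx K 2 - 2 * ai (xx K 0) (xx K 1) (xx K 2) ≠ 0 := by
  intro h
  have h1 := ai_disc (D_ne K) (mn_ne K)
  rw [h, zero_mul] at h1
  have h2 : ι ((MvPolynomial.X 1 ^ 2 + MvPolynomial.X 2 ^ 2) * (MvPolynomial.X 1 +
      MvPolynomial.X 2) + 4 : MvPolynomial (Fin 3) K) = 0 := by
    simp only [ι, map_add, map_mul, map_pow, map_ofNat]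
    linear_combination h1
  have h3 : ((MvPolynomial.X 1 ^ 2 + MvPolynomial.X 2 ^ 2) * (MvPolynomial.X 1 +
      MvPolynomial.X 2) + 4 : MvPolynomial (Fin 3) K) = 0 := by
    by_contra h3
    exact ι_ne_zero h3 h2
  have h4 := congrArg (MvPolynomial.eval ![0, 0, 0]) h3
  have h5 := congrArg (MvPolynomial.eval ![0, 1, 0]) h3
  simp at h4 h5
  have : (1 : K) = 0 := by linear_combination h5 - h4
  exact one_ne_zero this

lemma mj_ne1 : mj (xx K 0) (xx K 1) (xx K 2) ≠ xx K 2 := by
  intro h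
  have h1 := (mj_disc (D_ne K) (a_ne K)).2
  rw [h, sub_self, zero_mul] at h1
  have h2 : ι ((MvPolynomial.X 0 ^ 2 - 2 * MvPolynomial.X 0 * MvPolynomial.X 2) *
      (MvPolynomial.X 1 + MvPolynomial.X 2 - 2 * MvPolynomial.X 0) +
      (MvPolynomial.X 0 * MvPolynomial.X 2 ^ 2 + MvPolynomial.X 0 ^ 2 * (MvPolynomial.X 1 -
      MvPolynomial.X 2) + 1) : MvPolynomial (Fin 3) K) ≠ 0 := ι_ne_of_eval K ![0, 0, 0] (by simp)
  apply h2
  simp only [ι, map_add, map_sub, map_mul, map_pow, map_one, map_ofNat]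
  exact h1.symm

lemma mj_ne2 : mj (xx K 0) (xx K 1) (xx K 2) + xx K 2 - 2 * xx K 0 ≠ 0 := by
  intro h
  have h1 := (mj_disc (D_ne K) (a_ne K)).1
  rw [h, zero_mul] at h1
  have h2 : ι (MvPolynomial.X 0 * MvPolynomial.X 2 ^ 2 - 2 * MvPolynomial.X 0 ^ 2 *
      MvPolynomial.X 2 + 2 * MvPolynomial.X 0 ^ 3 + 1 : MvPolynomial (Fin 3) K) ≠ 0 :=
    ι_ne_of_eval K ![0, 0, 0] (by simp)
  apply h2
  simp only [ι, map_add, map_sub, map_mul, map_pow, map_one, map_ofNat]
  exact h1.symm

/-- the first coordinate of `P + Q` does not vanish -/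
lemma xQ_ne : mj (xx K 0) (xx K 1) (xx K 2) ^ 2 - xf (xx K 0) (xx K 1) (xx K 2) -
    xx K 0 * (mj (xx K 0) (xx K 1) (xx K 2) - xx K 1) ≠ 0 := by
  intro h
  have hD := D_ne K
  have ha := a_ne K
  have e0 := xf_mul hD
  have e1 := xf_mul (a := xx K 0) (m := xx K 2) (n := xx K 1) (by rwa [add_comm])
  have hs := xf_sub hD
  have e3 : xx K 0 * mj (xx K 0) (xx K 1) (xx K 2) = xx K 0 ^ 2 - xx K 0 * xx K 2 -
      xf (xx K 0) (xx K 1) (xx K 2) := by rw [mj]; field_simp
  have h2 : ι ((MvPolynomial.X 0 * MvPolynomial.X 2 ^ 2 + MvPolynomial.X 0 ^ 2 *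
      (MvPolynomial.X 1 - MvPolynomial.X 2) + 1) * (MvPolynomial.X 0 * MvPolynomial.X 1 ^ 2 +
      MvPolynomial.X 0 ^ 2 * (MvPolynomial.X 2 - MvPolynomial.X 1) + 1) - MvPolynomial.X 0 *
      (MvPolynomial.X 1 + MvPolynomial.X 2 - 2 * MvPolynomial.X 0) ^ 2 :
      MvPolynomial (Fin 3) K) ≠ 0 := ι_ne_of_eval K ![0, 0, 0] (by simp)
  apply h2
  simp only [ι, map_add, map_sub, map_mul, map_pow, map_one, map_ofNat]
  exact xQ_alg h e0 e1 hs e3

end Facts

section Param

open MvPolynomial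

variable (K : Type*) [Field K]

/-- the parameter of the curve, as an element of the function field -/
noncomputable def tt : F3 K := tf (xx K 0) (xx K 1) (xx K 2)

noncomputable def pD : MvPolynomial (Fin 3) K := X 1 + X 2 - 2 * X 0
noncomputable def pE : MvPolynomial (Fin 3) K := X 0 * X 2 ^ 2 + X 0 ^ 2 * (X 1 - X 2) + 1
noncomputable def tn : MvPolynomial (Fin 3) K := -(X 1 ^ 2 * pE K * pD K) + X 1 * pD K ^ 2 - pE K ^ 2
noncomputable def td : MvPolynomial (Fin 3) K := pD K ^ 2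

lemma pD_ne : pD K ≠ 0 := by
  intro h
  have := congrArg (eval ![0, 1, 0]) h
  simp [pD] at this

lemma td_ne : td K ≠ 0 := pow_ne_zero 2 (pD_ne K)

lemma tt_rep : tt K = ι (tn K) / ι (td K) := by
  have hD := D_ne K
  have e0 := xf_mul hD
  rw [eq_div_iff (ι_ne_zero (td_ne K)), tt, tf]
  simp only [tn, td, pD, pE, ι, map_add, map_sub, map_mul, map_pow, map_neg, map_one, map_ofNat]
  simp only [xx, ι] at e0 ⊢
  generalize xf (algebraMap (MvPolynomial (Fin 3) K) (FF (Fin 3) K) (X 0))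
    (algebraMap (MvPolynomial (Fin 3) K) (FF (Fin 3) K) (X 1))
    (algebraMap (MvPolynomial (Fin 3) K) (FF (Fin 3) K) (X 2)) = x at e0 ⊢
  generalize algebraMap (MvPolynomial (Fin 3) K) (FF (Fin 3) K) (X 0) = a at *
  generalize algebraMap (MvPolynomial (Fin 3) K) (FF (Fin 3) K) (X 1) = m at *
  generalize algebraMap (MvPolynomial (Fin 3) K) (FF (Fin 3) K) (X 2) = n at *
  linear_combination (m ^ 2 * (m + n - 2 * a) - (m + n - 2 * a) * x +
    (a * n ^ 2 + a ^ 2 * (m - n) + 1)) * e0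

lemma pD_deg : (pD K).totalDegree ≤ 1 := by
  rw [pD]
  refine dg_sub (dg_add (by simp) (by simp)) (dg_le (dg_mul (dg_num 2) (n := 1) (by simp)) (by simp))

lemma td_deg : (td K).totalDegree ≤ 2 := by
  rw [td]
  exact dg_le (dg_pow (pD_deg K) 2) (by norm_num)

lemma tn_deg : 2 < (tn K).totalDegree := by
  by_contra hcon
  push Not at hcon
  have h := MvPolynomial.aeval_natDegree_le (tn K) hcon
    (![Polynomial.X, Polynomial.X ^ 2, 0] : Fin 3 → Polynomial K) (n := 2) (by
      intro i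
      fin_cases i <;> simp)
  have e : (MvPolynomial.aeval (![Polynomial.X, Polynomial.X ^ 2, 0] : Fin 3 → Polynomial K))
      (tn K) = -(Polynomial.X ^ 10) + Polynomial.C 2 * Polynomial.X ^ 9 - Polynomial.X ^ 8 -
        Polynomial.C 2 * Polynomial.X ^ 5 + Polynomial.C 2 * Polynomial.X ^ 4 - 1 := by
    simp only [tn, pE, pD, map_add, map_sub, map_mul, map_pow, map_neg, map_one, map_ofNat, aeval_X,
      Matrix.cons_val_zero, Matrix.cons_val_one, Matrix.cons_val]
    ring
  have hc : ((MvPolynomial.aeval (![Polynomial.X, Polynomial.X ^ 2, 0] : Fin 3 → Polynomial K))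
      (tn K)).coeff 10 = -1 := by
    rw [e]
    simp [Polynomial.coeff_X_pow, Polynomial.coeff_one]
  have h1 := Polynomial.le_natDegree_of_ne_zero (n := 10) (by
    rw [hc]; exact neg_ne_zero.mpr one_ne_zero : ((MvPolynomial.aeval
      (![Polynomial.X, Polynomial.X ^ 2, 0] : Fin 3 → Polynomial K)) (tn K)).coeff 10 ≠ 0)
  omega

lemma tn_td : IsRelPrime (tn K) (td K) := by
  have htd := td_ne K
  refine IsRelPrime.symm ?_
  rw [UniqueFactorizationMonoid.isRelPrime_iff_no_prime_factors htd]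
  intro π h1 h2 hπ
  have hD : π ∣ pD K := hπ.dvd_of_dvd_pow h1
  have hE : π ∣ pE K := by
    have h3 : π ∣ pE K ^ 2 := by
      have h4 : pE K ^ 2 = pD K * (-(X 1 ^ 2 * pE K) + X 1 * pD K) - tn K := by
        rw [tn]; ring
      rw [h4]
      exact dvd_sub (hD.mul_right _) h2
    exact hπ.dvd_of_dvd_pow h3
  obtain ⟨w, hw⟩ := hD
  have hw0 : w ≠ 0 := by rintro rfl; exact pD_ne K (by rw [hw, mul_zero])
  have hdeg := pD_deg K
  rw [hw, tdeg_mul hπ.ne_zero hw0] at hdeg
  have hπd : π.totalDegree ≠ 0 := by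
    intro h0
    apply hπ.not_isUnit
    rw [MvPolynomial.totalDegree_eq_zero_iff_eq_C] at h0
    rw [h0]
    refine IsUnit.map C (isUnit_iff_ne_zero.mpr ?_)
    intro h1
    rw [h1, map_zero] at h0
    exact hπ.ne_zero h0
  have hwd : w.totalDegree = 0 := by omega
  rw [MvPolynomial.totalDegree_eq_zero_iff_eq_C] at hwd
  have hc0 : coeff 0 w ≠ 0 := by
    intro h1
    rw [h1, map_zero] at hwd
    exact hw0 hwd
  obtain ⟨z, hz⟩ := hE
  have hev : eval ![0, 0, 0] (pE K) = 1 := by simp [pE]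
  have hev2 : eval ![0, 0, 0] (pD K) = 0 := by simp [pD]
  rw [hw, map_mul, hwd, eval_C] at hev2
  rw [hz, map_mul, (mul_eq_zero.mp hev2).resolve_right hc0, zero_mul] at hev
  exact zero_ne_one hev

lemma tt_transc : Transcendental K (tt K) := by
  rw [transcendental_iff]
  intro p hp
  by_contra hp0
  have hv := ι_hm (u := tn K) (td_ne K) (le_refl p.natDegree)
  rw [← tt_rep, hp, mul_zero] at hv
  have h0 : hm (tn K) (td K) p.natDegree p = 0 := by
    by_contra h
    exact ι_ne_zero h hv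
  rcases Nat.eq_zero_or_pos p.natDegree with h | h
  · obtain ⟨c, rfl⟩ := Polynomial.natDegree_eq_zero.mp h
    rw [Polynomial.aeval_C] at hp
    apply hp0
    rw [(map_eq_zero _).mp hp, map_zero]
  · have h1 := hm_deg (p := p) (u := tn K) (v := td K)
      (lt_of_le_of_lt (td_deg K) (tn_deg K)) (N := p.natDegree) h
      (Polynomial.leadingCoeff_ne_zero.mpr hp0)
    rw [h0, totalDegree_zero] at h1
    have h2 := tn_deg K
    have : 0 < p.natDegree * (tn K).totalDegree := Nat.mul_pos h (by omega)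
    omega

end Param

end Pool.Agent.H950R2.Sil
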