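import Mathlib

set_option autoImplicit false

/-! # Rational self-maps of projective space, their iterates and degrees -/

namespace Pool.Agent.H950R2.Sil

/-- A rational map from projective `N`-space over `K` to itself: `N + 1` forms of one common
degree without nonconstant common factor. -/
structure RatMap (K : Type*) [Field K] (N : ℕ) where
  /-- the degree of the map -/
  deg : ℕ
  /-- the forms -/
  form : Fin (N + 1) → MvPolynomial (Fin (N + 1)) K
  homogeneous : ∀ i, (form i).IsHomogeneous deg
  coprime : ∀ G : MvPolynomial (Fin (N + 1)) K, (∀ i, G ∣ form i) → IsUnit G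

/-- Substitution: the tuple of polynomials `u ∘ v`. -/
noncomputable def comp {K : Type*} [Field K] {N : ℕ}
    (u v : Fin (N + 1) → MvPolynomial (Fin (N + 1)) K) :
    Fin (N + 1) → MvPolynomial (Fin (N + 1)) K :=
  fun i => MvPolynomial.bind₁ v (u i)

namespace RatMap

variable {K : Type*} [Field K] {N : ℕ}

/-- `f` is dominant: the forms satisfy no nontrivial polynomial relation. -/
def Dominant (f : RatMap K N) : Prop := AlgebraicIndependent K f.form

/-- The tuple `f ∘ ⋯ ∘ f` (`n` times), common factors not yet removed. -/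
noncomputable def iter (f : RatMap K N) : ℕ → Fin (N + 1) → MvPolynomial (Fin (N + 1)) K
  | 0 => MvPolynomial.X
  | n + 1 => comp f.form (f.iter n)

/-- `g` is the `n`-th iterate of `f`: the tuple `f ∘ ⋯ ∘ f` is the product of the coprime tuple
`g` with a nonzero polynomial. -/
def IsIterate (f : RatMap K N) (n : ℕ) (g : RatMap K N) : Prop :=
  ∃ G : MvPolynomial (Fin (N + 1)) K, G ≠ 0 ∧ ∀ i, f.iter n i = G * g.form i

/-- `f` is birational: it has an inverse rational map `g`. -/
def Birational (f : RatMap K N) : Prop :=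
  ∃ g : RatMap K N,
    (∃ G : MvPolynomial (Fin (N + 1)) K, G ≠ 0 ∧
      ∀ i, comp f.form g.form i = G * MvPolynomial.X i) ∧
    (∃ G : MvPolynomial (Fin (N + 1)) K, G ≠ 0 ∧
      ∀ i, comp g.form f.form i = G * MvPolynomial.X i)

end RatMap

/-- `F(n) ≍ G(n)`: there are positive constants with `c₁ F(n) ≤ G(n) ≤ c₂ F(n)` for all large
`n`. -/
def SameGrowth (F G : ℕ → ℝ) : Prop :=
  ∃ c₁ c₂ : ℝ, 0 < c₁ ∧ 0 < c₂ ∧ ∃ c₃ : ℕ, ∀ n ≥ c₃, c₁ * F n ≤ G n ∧ G n ≤ c₂ * F n

end Pool.Agent.H950R2.Sil
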