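import Mathlib

set_option autoImplicit false

/-! # Quasi-quadratic growth in an abelian group -/

namespace Pool.Agent.H950R2.Sil

section Quad

variable {G : Type*} [AddCommGroup G] {h : G → ℕ} {c : ℕ}

/-- upper parallelogram law for a symmetric function -/
structure ParLe (h : G → ℕ) (c : ℕ) : Prop where
  zero : h 0 = 0
  neg : ∀ P, h (-P) = h P
  par : ∀ P Q, h (P + Q) + h (P - Q) ≤ 2 * h P + 2 * h Q + c

namespace ParLe

lemma add (H : ParLe h c) (P Q : G) : h (P + Q) ≤ 2 * h P + 2 * h Q + c := by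
  have := H.par P Q
  omega

lemma sub (H : ParLe h c) (P Q : G) : h (P - Q) ≤ 2 * h P + 2 * h Q + c := by
  have := H.par P Q
  omega

lemma nsmul (H : ParLe h c) (P : G) (n : ℕ) : (h (n • P) : ℤ) ≤ n ^ 2 * (h P + c) := by
  have key : ∀ n : ℕ, (h ((n + 1) • P) : ℤ) ≤ h (n • P) + (2 * n + 1) * h P + n * c ∧
      (h (n • P) : ℤ) ≤ n ^ 2 * h P + n ^ 2 * c := by
    intro n
    induction n with
    | zero => simp [H.zero]
    | succ n ih =>
      obtain ⟨ih1, ih2⟩ := ih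
      have h1 := H.par ((n + 1) • P) P
      rw [show (n + 1) • P + P = (n + 1 + 1) • P from (succ_nsmul P (n + 1)).symm,
        show (n + 1) • P - P = n • P by rw [succ_nsmul]; abel] at h1
      refine ⟨?_, ?_⟩
      · push_cast
        have h2 : (h ((n + 1 + 1) • P) : ℤ) + h (n • P) ≤ 2 * h ((n + 1) • P) + 2 * h P + c := by
          exact_mod_cast h1
        linarith
      · push_cast
        have e1 : (0 : ℤ) ≤ (n : ℤ) * c := by positivity
        have e2 : (0 : ℤ) ≤ (c : ℤ) := by positivity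
        nlinarith
  have := (key n).2
  linarith

/-- the lower bound for all multiples follows from that for multiples by powers of `2` -/
lemma lower (H : ParLe h c) (S : G) {A : ℝ} (hA : 0 < A)
    (hS : ∀ k : ℕ, 1 ≤ k → A * 4 ^ k ≤ h ((2 ^ k) • S)) (m : ℕ) :
    A / 4 * m ^ 2 - (c : ℝ) ≤ h (m • S) := by
  rcases Nat.eq_zero_or_pos m with rfl | hm
  · rw [zero_smul, H.zero]
    simp
  obtain ⟨k, hk⟩ := exists_nat_gt ((4 * (m : ℝ) ^ 2 * (h S + c) + 2 * c) / A)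
  rw [div_lt_iff₀ hA] at hk
  have hk4 : (k : ℝ) ≤ 4 ^ (k + 1) := by
    have h1 : k < 4 ^ (k + 1) := (Nat.lt_pow_self (by norm_num : 1 < 4)).trans
      (Nat.pow_lt_pow_right (by norm_num) (Nat.lt_succ_self k))
    exact_mod_cast h1.le
  have hbig : 4 * (m : ℝ) ^ 2 * (h S + c) + 2 * c ≤ A * 4 ^ (k + 1) := by
    have := mul_le_mul_of_nonneg_left hk4 hA.le
    linarith
  have h1 := hS (k + 1) (by omega)
  set N := 2 ^ (k + 1) with hN
  have hdm : m * (N / m) + N % m = N := Nat.div_add_mod N m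
  have hr : N % m < m := Nat.mod_lt _ hm
  generalize N / m = j at hdm
  generalize N % m = r at hdm hr
  have e1 : N • S = j • (m • S) + r • S := by
    rw [← hdm, add_smul, mul_comm m j, mul_smul]
  have h2 := H.add (j • (m • S)) (r • S)
  rw [← e1] at h2
  have h3 := H.nsmul (m • S) j
  have h4 := H.nsmul S r
  have h2' : (h (N • S) : ℝ) ≤ 2 * h (j • (m • S)) + 2 * h (r • S) + c := by exact_mod_cast h2
  have h3' : (h (j • (m • S)) : ℝ) ≤ j ^ 2 * (h (m • S) + c) := by exact_mod_cast h3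
  have h4' : (h (r • S) : ℝ) ≤ r ^ 2 * (h S + c) := by exact_mod_cast h4
  have hN4 : (4 : ℝ) ^ (k + 1) = (N : ℝ) ^ 2 := by
    rw [hN]
    push_cast
    rw [← pow_mul, mul_comm (k + 1) 2, pow_mul]
    norm_num
  have hr' : (r : ℝ) ^ 2 * (h S + c) ≤ (m : ℝ) ^ 2 * (h S + c) := by
    have : (r : ℝ) ≤ m := by exact_mod_cast hr.le
    gcongr
  have h5 : A / 2 * (N : ℝ) ^ 2 ≤ 2 * (j ^ 2 * (h (m • S) + c)) := by
    rw [hN4] at h1 hbig
    nlinarith
  have hjm : (j : ℝ) * m ≤ N := by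
    have : j * m ≤ N := by rw [← hdm, mul_comm m j]; exact Nat.le_add_right _ _
    exact_mod_cast this
  have hN0 : (0 : ℝ) < (N : ℝ) ^ 2 := by positivity
  have hm0 : (0 : ℝ) < m := by exact_mod_cast hm
  have h6 : (j : ℝ) ^ 2 * m ^ 2 ≤ (N : ℝ) ^ 2 := by
    rw [← mul_pow]
    gcongr
  have h7 : A / 4 * (m : ℝ) ^ 2 ≤ h (m • S) + c := by
    by_contra hcon
    push Not at hcon
    have h8 : (0 : ℝ) ≤ (h (m • S) : ℝ) + c := by positivity
    have h9 : (N : ℝ) ^ 2 * (A / 4 * m ^ 2) ≤ (j : ℝ) ^ 2 * m ^ 2 * (h (m • S) + c) := by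
      nlinarith
    have h10 : (j : ℝ) ^ 2 * m ^ 2 * (h (m • S) + c) ≤ (N : ℝ) ^ 2 * (h (m • S) + c) :=
      mul_le_mul_of_nonneg_right h6 h8
    have h11 := mul_lt_mul_of_pos_left hcon hN0
    linarith
  linarith

/-- growth of order `n ^ 4` along `P + n Q - (n choose 2) S` -/
lemma quartic (H : ParLe h c) (P Q S : G) {A : ℝ} (hA : 0 < A)
    (hS : ∀ k : ℕ, 1 ≤ k → A * 4 ^ k ≤ h ((2 ^ k) • S)) :
    ∃ c₁ c₂ : ℝ, 0 < c₁ ∧ 0 < c₂ ∧ ∃ n₀ : ℕ, ∀ n ≥ n₀,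
      c₁ * (n : ℝ) ^ 4 ≤ h (P + n • Q - (n.choose 2) • S) ∧
      (h (P + n • Q - (n.choose 2) • S) : ℝ) ≤ c₂ * (n : ℝ) ^ 4 := by
  have hch : ∀ n : ℕ, ((n.choose 2 : ℕ) : ℝ) = n * (n - 1) / 2 := fun n =>
    Nat.cast_choose_two ℝ n
  -- bounds for the summands
  have h1 : ∀ n : ℕ, 1 ≤ n → (h (P + n • Q) : ℝ) ≤ (2 * h P + 2 * (h Q + c) + c) * n ^ 2 := by
    intro n hn
    have a1 : (h (P + n • Q) : ℝ) ≤ 2 * h P + 2 * h (n • Q) + c := by
      exact_mod_cast H.add P (n • Q)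
    have a2 : (h (n • Q) : ℝ) ≤ n ^ 2 * (h Q + c) := by exact_mod_cast H.nsmul Q n
    have a3 : (1 : ℝ) ≤ (n : ℝ) ^ 2 := by
      have : (1 : ℝ) ≤ n := by exact_mod_cast hn
      nlinarith
    have a4 : (0 : ℝ) ≤ 2 * h P + c := by positivity
    nlinarith
  set U : ℝ := 2 * h P + 2 * (h Q + c) + c with hU
  have hU0 : 0 ≤ U := by positivity
  have hc0 : (0 : ℝ) ≤ c := by positivity
  obtain ⟨n₁, hn₁⟩ := exists_nat_gt (512 * (2 * U + 2 * c + 1) / A + 2)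
  refine ⟨A / 256, 2 * U + 2 * (h S + c) + c + 1, by positivity, by positivity, n₁ + 2,
    fun n hn => ⟨?_, ?_⟩⟩
  · have hn1 : (n₁ : ℝ) + 2 ≤ n := by exact_mod_cast hn
    have hn2 : (2 : ℝ) ≤ n := by
      have : (0 : ℝ) ≤ n₁ := by positivity
      linarith
    have b1 := H.lower S hA hS (n.choose 2)
    have b2 : (h ((n.choose 2) • S) : ℝ) ≤ 2 * h (P + n • Q) +
        2 * h (P + n • Q - (n.choose 2) • S) + c := by
      have := H.sub (P + n • Q) (P + n • Q - (n.choose 2) • S)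
      rw [sub_sub_cancel] at this
      exact_mod_cast this
    have b3 := h1 n (by omega)
    have b4 : (n : ℝ) ^ 2 / 4 ≤ ((n.choose 2 : ℕ) : ℝ) := by
      rw [hch]
      nlinarith
    have b5 : (n : ℝ) ^ 4 / 16 ≤ ((n.choose 2 : ℕ) : ℝ) ^ 2 := by
      have := mul_le_mul b4 b4 (by positivity) (by positivity)
      nlinarith
    have b6 : A / 4 * ((n : ℝ) ^ 4 / 16) ≤ A / 4 * ((n.choose 2 : ℕ) : ℝ) ^ 2 :=
      mul_le_mul_of_nonneg_left b5 (by positivity)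
    have b7 : 512 * (2 * U + 2 * c + 1) / A ≤ n := by linarith
    rw [div_le_iff₀ hA] at b7
    -- `A n ^ 4 / 64 - c ≤ 2 U n ^ 2 + 2 h + c`
    have b8 : A / 128 * (n : ℝ) ^ 4 ≥ (2 * U + 2 * c) * (n : ℝ) ^ 2 := by
      have c1 : (n : ℝ) ^ 2 ≥ 1 := by nlinarith
      have c2 : A * (n : ℝ) ^ 2 ≥ 512 * (2 * U + 2 * c + 1) := by
        have : A * (n : ℝ) ^ 2 ≥ A * n := by
          apply mul_le_mul_of_nonneg_left _ hA.le
          nlinarith
        nlinarith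
      nlinarith
    have c3 : (1 : ℝ) ≤ (n : ℝ) ^ 2 := by nlinarith
    have b9 : (c : ℝ) ≤ c * (n : ℝ) ^ 2 := le_mul_of_one_le_right hc0 c3
    linarith
  · have hn2 : (1 : ℝ) ≤ n := by exact_mod_cast (by omega : 1 ≤ n)
    have b1 := h1 n (by omega)
    have b2 : (h (P + n • Q - (n.choose 2) • S) : ℝ) ≤ 2 * h (P + n • Q) +
        2 * h ((n.choose 2) • S) + c := by exact_mod_cast H.sub (P + n • Q) ((n.choose 2) • S)
    have b3 : (h ((n.choose 2) • S) : ℝ) ≤ ((n.choose 2 : ℕ) : ℝ) ^ 2 * (h S + c) := by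
      exact_mod_cast H.nsmul S (n.choose 2)
    have b4 : ((n.choose 2 : ℕ) : ℝ) ≤ (n : ℝ) ^ 2 := by
      rw [hch]
      nlinarith
    have b5 : ((n.choose 2 : ℕ) : ℝ) ^ 2 ≤ (n : ℝ) ^ 4 := by
      have : (0 : ℝ) ≤ ((n.choose 2 : ℕ) : ℝ) := by positivity
      have := mul_le_mul b4 b4 this (by positivity)
      nlinarith
    have b6 : ((n.choose 2 : ℕ) : ℝ) ^ 2 * (h S + c) ≤ (n : ℝ) ^ 4 * (h S + c) :=
      mul_le_mul_of_nonneg_right b5 (by positivity)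
    have b7 : (n : ℝ) ^ 2 ≤ (n : ℝ) ^ 4 := by
      have : (1 : ℝ) ≤ (n : ℝ) ^ 2 := by nlinarith
      nlinarith
    have b8 : (1 : ℝ) ≤ (n : ℝ) ^ 4 := by nlinarith
    have b9 : U * (n : ℝ) ^ 2 ≤ U * (n : ℝ) ^ 4 := mul_le_mul_of_nonneg_left b7 hU0
    have b10 : (c : ℝ) ≤ c * (n : ℝ) ^ 4 := le_mul_of_one_le_right hc0 b8
    linarith

end ParLe

end Quad

end Pool.Agent.H950R2.Sil
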