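import Mathlib
import Pool.Agent.H950R2.Sil.Auto
import Pool.Agent.H950R2.Sil.Quad

set_option autoImplicit false

/-! # The endomorphism of the function field and its iterates -/

namespace Pool.Agent.H950R2.Sil

open WeierstrassCurve WeierstrassCurve.Affine

section MapLemmas

variable {F : Type*} [Field F] (φ : F →+* F) (a m n : F)

lemma map_xf : φ (xf a m n) = xf (φ a) (φ m) (φ n) := by
  simp only [xf, map_div₀, map_neg, map_add, map_mul, map_sub, map_pow, map_one, map_ofNat]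

lemma map_tf : φ (tf a m n) = tf (φ a) (φ m) (φ n) := by
  simp only [tf, map_xf, map_add, map_mul, map_sub, map_pow]

variable {K : Type*} [Field K] [Algebra K F] (L : IntermediateField K F) {a m n : F}

lemma two_mem : (2 : F) ∈ L := by
  have := L.algebraMap_mem (2 : K)
  rwa [map_ofNat] at this

lemma xf_mem (ha : a ∈ L) (hm : m ∈ L) (hn : n ∈ L) : xf a m n ∈ L := by
  rw [xf]
  exact L.div_mem (L.neg_mem (L.add_mem (L.add_mem (L.mul_mem ha (pow_mem hn 2))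
    (L.mul_mem (pow_mem ha 2) (L.sub_mem hm hn))) L.one_mem))
    (L.sub_mem (L.add_mem hm hn) (L.mul_mem (two_mem L) ha))

lemma ai_mem (ha : a ∈ L) (hm : m ∈ L) (hn : n ∈ L) : ai a m n ∈ L := by
  rw [ai]
  exact L.div_mem (L.sub_mem (L.sub_mem (pow_mem hm 2) (xf_mem L ha hm hn)) (xf_mem L ha hn hm))
    (L.sub_mem hm hn)

lemma mj_mem (ha : a ∈ L) (hm : m ∈ L) (hn : n ∈ L) : mj a m n ∈ L := by
  rw [mj]
  exact L.sub_mem (L.sub_mem ha hn) (L.div_mem (xf_mem L ha hm hn) ha)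

end MapLemmas

section Autos

variable (K : Type*) [Field K]

noncomputable def vS : Fin 3 → F3 K := ![xx K 0, xx K 2, xx K 1]
noncomputable def vI : Fin 3 → F3 K := ![ai (xx K 0) (xx K 1) (xx K 2), xx K 1, xx K 2]
noncomputable def vJ : Fin 3 → F3 K := ![xx K 0, mj (xx K 0) (xx K 1) (xx K 2), xx K 2]

lemma vS_indep : AlgebraicIndependent K (vS K) := by
  apply indep_of_adjoin
  have h : ∀ i, vS K i ∈ IntermediateField.adjoin K (Set.range (vS K)) := fun i =>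
    IntermediateField.subset_adjoin K _ ⟨i, rfl⟩
  intro i
  fin_cases i
  · exact h 0
  · exact h 2
  · exact h 1

lemma vI_indep : AlgebraicIndependent K (vI K) := by
  apply indep_of_adjoin
  have h : ∀ i, vI K i ∈ IntermediateField.adjoin K (Set.range (vI K)) := fun i =>
    IntermediateField.subset_adjoin K _ ⟨i, rfl⟩
  have h4 := (ai_eqs (D_ne K) (mn_ne K) (ai_ne K)).2.2.2
  intro i
  fin_cases i
  · have := ai_mem _ (h 0) (h 1) (h 2)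
    change xx K 0 ∈ _
    rw [← h4]
    exact this
  · exact h 1
  · exact h 2

lemma vJ_indep : AlgebraicIndependent K (vJ K) := by
  apply indep_of_adjoin
  have h : ∀ i, vJ K i ∈ IntermediateField.adjoin K (Set.range (vJ K)) := fun i =>
    IntermediateField.subset_adjoin K _ ⟨i, rfl⟩
  have h4 := (mj_eqs (D_ne K) (a_ne K) (mj_ne1 K) (mj_ne2 K)).2.2.2
  intro i
  fin_cases i
  · exact h 0
  · have := mj_mem _ (h 0) (h 1) (h 2)
    change xx K 1 ∈ _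
    rw [← h4]
    exact this
  · exact h 2

noncomputable def fS : F3 K →ₐ[K] F3 K := lft (vS K) (vS_indep K)
noncomputable def fI : F3 K →ₐ[K] F3 K := lft (vI K) (vI_indep K)
noncomputable def fJ : F3 K →ₐ[K] F3 K := lft (vJ K) (vJ_indep K)

lemma fS_xx : fS K (xx K 0) = xx K 0 ∧ fS K (xx K 1) = xx K 2 ∧ fS K (xx K 2) = xx K 1 :=
  ⟨lft_xx _ _ 0, lft_xx _ _ 1, lft_xx _ _ 2⟩

lemma fI_xx : fI K (xx K 0) = ai (xx K 0) (xx K 1) (xx K 2) ∧ fI K (xx K 1) = xx K 1 ∧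
    fI K (xx K 2) = xx K 2 := ⟨lft_xx _ _ 0, lft_xx _ _ 1, lft_xx _ _ 2⟩

lemma fJ_xx : fJ K (xx K 0) = xx K 0 ∧ fJ K (xx K 1) = mj (xx K 0) (xx K 1) (xx K 2) ∧
    fJ K (xx K 2) = xx K 2 := ⟨lft_xx _ _ 0, lft_xx _ _ 1, lft_xx _ _ 2⟩

/-- first coordinates of the two generic points -/
noncomputable def x1 : F3 K := xf (xx K 0) (xx K 1) (xx K 2)
noncomputable def x2 : F3 K := xf (xx K 0) (xx K 2) (xx K 1)

lemma map_x1 (φ : F3 K →ₐ[K] F3 K) : φ (x1 K) = xf (φ (xx K 0)) (φ (xx K 1)) (φ (xx K 2)) :=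
  map_xf (φ : F3 K →+* F3 K) _ _ _

lemma map_x2 (φ : F3 K →ₐ[K] F3 K) : φ (x2 K) = xf (φ (xx K 0)) (φ (xx K 2)) (φ (xx K 1)) :=
  map_xf (φ : F3 K →+* F3 K) _ _ _

lemma map_tt (φ : F3 K →ₐ[K] F3 K) : φ (tt K) = tf (φ (xx K 0)) (φ (xx K 1)) (φ (xx K 2)) :=
  map_tf (φ : F3 K →+* F3 K) _ _ _

lemma fS_x : fS K (x1 K) = x2 K ∧ fS K (x2 K) = x1 K ∧ fS K (tt K) = tt K := by
  obtain ⟨h0, h1, h2⟩ := fS_xx K
  refine ⟨?_, ?_, ?_⟩
  · rw [map_x1, h0, h1, h2]; rfl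
  · rw [map_x2, h0, h1, h2]; rfl
  · rw [map_tt, h0, h1, h2, tt, tf_comm (D_ne K)]

lemma fI_x : fI K (x1 K) = xx K 1 ^ 2 - x1 K ∧ fI K (x2 K) = x2 K ∧ fI K (tt K) = tt K := by
  obtain ⟨h0, h1, h2⟩ := fI_xx K
  obtain ⟨e1, e2, e3, -⟩ := ai_eqs (D_ne K) (mn_ne K) (ai_ne K)
  refine ⟨?_, ?_, ?_⟩
  · rw [map_x1, h0, h1, h2, e1]; rfl
  · rw [map_x2, h0, h1, h2, e2]; rfl
  · rw [map_tt, h0, h1, h2, e3]; rfl

lemma fJ_x : fJ K (x1 K) = x1 K + xx K 0 * (mj (xx K 0) (xx K 1) (xx K 2) - xx K 1) ∧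
    fJ K (x2 K) = x2 K ∧ fJ K (tt K) = tt K := by
  obtain ⟨h0, h1, h2⟩ := fJ_xx K
  obtain ⟨e1, e2, e3, -⟩ := mj_eqs (D_ne K) (a_ne K) (mj_ne1 K) (mj_ne2 K)
  refine ⟨?_, ?_, ?_⟩
  · rw [map_x1, h0, h1, h2, e1]; rfl
  · rw [map_x2, h0, h1, h2, e2]; rfl
  · rw [map_tt, h0, h1, h2, e3]; rfl

end Autos

section Points

variable (K : Type*) [Field K]

lemma hΔ : 64 * tt K ^ 3 + 27 ≠ 0 := disc_t_ne (tt_transc K)

lemma eq1 : xx K 1 ^ 2 * x1 K + xx K 1 - x1 K ^ 2 = tt K := rfl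

lemma eq2 : xx K 2 ^ 2 * x2 K + xx K 2 - x2 K ^ 2 = tt K := by
  rw [tt, tf_comm (D_ne K)]; rfl

/-- the two generic points and the section -/
noncomputable def P1 : (EC (tt K)).Point := pt (hΔ K) (xx K 1) (x1 K) (eq1 K)
noncomputable def P2 : (EC (tt K)).Point := pt (hΔ K) (xx K 2) (x2 K) (eq2 K)
noncomputable def S0 : (EC (tt K)).Point := sg (hΔ K)

noncomputable instance : DecidableEq (F3 K) := Classical.decEq _

/-- induced map on points -/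
noncomputable def pmm (φ : F3 K →ₐ[K] F3 K) (h : φ (tt K) = tt K) :
    (EC (tt K)).Point →+ (EC (tt K)).Point := pm (φ : F3 K →+* F3 K) h (hΔ K)

lemma pmm_comp (φ ψ : F3 K →ₐ[K] F3 K) (h : φ (tt K) = tt K) (h' : ψ (tt K) = tt K)
    (h'' : (φ.comp ψ) (tt K) = tt K) (P : (EC (tt K)).Point) :
    pmm K (φ.comp ψ) h'' P = pmm K φ h (pmm K ψ h' P) := by
  rcases P with _ | ⟨x, y, hn⟩
  · exact ((pmm K φ h).map_zero).symm
  · rfl

lemma pS (h : fS K (tt K) = tt K) : pmm K (fS K) h (P1 K) = P2 K ∧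
    pmm K (fS K) h (P2 K) = P1 K ∧ pmm K (fS K) h (S0 K) = S0 K :=
  ⟨pm_pt (fS_xx K).2.1 (fS_x K).1, pm_pt (fS_xx K).2.2 (fS_x K).2.1, pm_sg⟩

lemma pI (h : fI K (tt K) = tt K) : pmm K (fI K) h (P1 K) = -P1 K - S0 K ∧
    pmm K (fI K) h (P2 K) = P2 K ∧ pmm K (fI K) h (S0 K) = S0 K := by
  refine ⟨?_, pm_pt (fI_xx K).2.2 (fI_x K).2.1, pm_sg⟩
  have h' : xx K 1 ^ 2 * (xx K 1 ^ 2 - x1 K) + xx K 1 - (xx K 1 ^ 2 - x1 K) ^ 2 = tt K := by
    rw [← eq1]; ring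
  have := pt_neg_sub_sg (hΔ K) (eq1 K) (x_ne K) h'
  rw [P1, S0, this]
  exact pm_pt (fI_xx K).2.1 (fI_x K).1

lemma pJ (h : fJ K (tt K) = tt K) : pmm K (fJ K) h (P1 K) = -P1 K - P2 K - S0 K ∧
    pmm K (fJ K) h (P2 K) = P2 K ∧ pmm K (fJ K) h (S0 K) = S0 K := by
  refine ⟨?_, pm_pt (fJ_xx K).2.2 (fJ_x K).2.1, pm_sg⟩
  obtain ⟨e1, e2, e3, -⟩ := mj_eqs (D_ne K) (a_ne K) (mj_ne1 K) (mj_ne2 K)
  have hx : x1 K = xf (xx K 0) (xx K 1) (xx K 2) := rfl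
  set p := mj (xx K 0) (xx K 1) (xx K 2) with hp
  have e4 : p ^ 2 * (x1 K + xx K 0 * (p - xx K 1)) + p - (x1 K + xx K 0 * (p - xx K 1)) ^ 2 =
      tt K := by
    rw [tf, e1] at e3
    exact e3
  have e5 : p ^ 2 * (p ^ 2 - x1 K - xx K 0 * (p - xx K 1)) + p -
      (p ^ 2 - x1 K - xx K 0 * (p - xx K 1)) ^ 2 = tt K := by
    rw [← e4]; ring
  have s1 : P1 K + P2 K = pt (hΔ K) p (p ^ 2 - x1 K - xx K 0 * (p - xx K 1)) e5 :=
    pt_add (hΔ K) (eq1 K) (eq2 K) (D_ne K) (a_ne K) (mn_ne K) hp rfl e5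
  have s2 := pt_neg_sub_sg (hΔ K) e5 (xQ_ne K) (by
    rw [← e4]; ring)
  have s3 : -P1 K - P2 K - S0 K = -(P1 K + P2 K) - sg (hΔ K) := by rw [S0]; abel
  rw [s3, s1, s2]
  refine pm_pt (fJ_xx K).2.1 ?_
  exact (fJ_x K).1.trans (by rw [hp]; ring)

/-- the endomorphism of the function field given by the rational map -/
noncomputable def ph : F3 K →ₐ[K] F3 K :=
  (fI K).comp ((fJ K).comp ((fI K).comp ((fJ K).comp ((fI K).comp (fS K)))))

lemma ph_tt : ph K (tt K) = tt K := by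
  simp only [ph, AlgHom.comp_apply, (fS_x K).2.2, (fI_x K).2.2, (fJ_x K).2.2]

lemma ph_xx1 : ph K (xx K 1) = xx K 2 := by
  simp only [ph, AlgHom.comp_apply, (fS_xx K).2.1, (fI_xx K).2.2, (fJ_xx K).2.2]

lemma ph_x1 : ph K (x1 K) = x2 K := by
  simp only [ph, AlgHom.comp_apply, (fS_x K).1, (fI_x K).2.1, (fJ_x K).2.1]

lemma pmm_ph (h : ph K (tt K) = tt K) : pmm K (ph K) h (P1 K) = P2 K ∧
    pmm K (ph K) h (P2 K) = 2 • P2 K - P1 K - S0 K ∧ pmm K (ph K) h (S0 K) = S0 K := by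
  have hS := (fS_x K).2.2
  have hI := (fI_x K).2.2
  have hJ := (fJ_x K).2.2
  obtain ⟨s1, s2, s3⟩ := pS K hS
  obtain ⟨i1, i2, i3⟩ := pI K hI
  obtain ⟨j1, j2, j3⟩ := pJ K hJ
  have key : ∀ P, pmm K (ph K) h P = pmm K (fI K) hI (pmm K (fJ K) hJ (pmm K (fI K) hI
      (pmm K (fJ K) hJ (pmm K (fI K) hI (pmm K (fS K) hS P))))) := by
    intro P
    rcases P with _ | ⟨x, y, hn⟩
    · have e : ∀ (φ : F3 K →ₐ[K] F3 K) (h : φ (tt K) = tt K),
          pmm K φ h (0 : (EC (tt K)).Point) = 0 := fun φ h => (pmm K φ h).map_zero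
      change pmm K (ph K) h 0 = pmm K (fI K) hI (pmm K (fJ K) hJ (pmm K (fI K) hI
        (pmm K (fJ K) hJ (pmm K (fI K) hI (pmm K (fS K) hS 0)))))
      rw [e, e, e, e, e, e, e]
    · rfl
  refine ⟨?_, ?_, ?_⟩
  · rw [key, s1, i2, j2, i2, j2, i2]
  · rw [key, s2, i1]
    simp only [map_sub, map_neg, j1, j2, j3, i1, i2, i3]
    abel
  · rw [key, s3, i3, j3, i3, j3, i3]

/-- iterates of the endomorphism -/
noncomputable def it : ℕ → (F3 K →ₐ[K] F3 K)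
  | 0 => AlgHom.id K _
  | n + 1 => (it n).comp (ph K)

lemma it_tt (n : ℕ) : it K n (tt K) = tt K := by
  induction n with
  | zero => rfl
  | succ n ih => rw [it, AlgHom.comp_apply, ph_tt, ih]

lemma it_succ (n : ℕ) (z : F3 K) : it K (n + 1) z = it K n (ph K z) := rfl

lemma pmm_it (n : ℕ) : pmm K (it K n) (it_tt K n) (P1 K) =
      P1 K + n • (P2 K - P1 K) - (n.choose 2) • S0 K ∧
    pmm K (it K n) (it_tt K n) (P2 K - P1 K) = (P2 K - P1 K) - n • S0 K := by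
  induction n with
  | zero =>
    have e : ∀ P, pmm K (it K 0) (it_tt K 0) P = P := by
      intro P
      rcases P with _ | ⟨x, y, hn⟩
      · exact (pmm K _ _).map_zero
      · rfl
    rw [e, e]
    simp
  | succ n ih =>
    obtain ⟨ih1, ih2⟩ := ih
    obtain ⟨p1, p2, p3⟩ := pmm_ph K (ph_tt K)
    have e : ∀ P, pmm K (it K (n + 1)) (it_tt K (n + 1)) P =
        pmm K (it K n) (it_tt K n) (pmm K (ph K) (ph_tt K) P) := fun P =>
      pmm_comp K _ _ _ _ _ P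
    have e0 : pmm K (it K n) (it_tt K n) (S0 K) = S0 K := pm_sg
    have e1 : P2 K = P1 K + (P2 K - P1 K) := by abel
    have e2 : 2 • P2 K - P1 K - S0 K - P2 K = (P2 K - P1 K) - S0 K := by abel
    constructor
    · rw [e, p1]
      conv_lhs => rw [e1]
      have e3 : (n + 1).choose 2 • S0 K = n • S0 K + n.choose 2 • S0 K := by
        rw [Nat.choose_succ_succ' n 1, Nat.choose_one_right, add_smul]
      rw [map_add, ih1, ih2, e3, succ_nsmul]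
      abel
    · rw [e, map_sub, p1, p2, e2, map_sub, ih2, e0, succ_nsmul]
      abel

/-- first coordinates along the orbit -/
lemma it_x1 (n : ℕ) : it K n (x1 K) =
    xc (P1 K + n • (P2 K - P1 K) - (n.choose 2) • S0 K) := by
  rw [← (pmm_it K n).1, pmm, xc_pm]
  rfl

lemma parLe : ParLe (hx : (EC (tt K)).Point → ℕ) (2 * ht (tt K)) :=
  ⟨hx_zero, hx_neg, hx_par⟩

lemma growth : ∃ c₁ c₂ : ℝ, 0 < c₁ ∧ 0 < c₂ ∧ ∃ n₀ : ℕ, ∀ n ≥ n₀,
    c₁ * (n : ℝ) ^ 4 ≤ ht (it K n (x1 K)) ∧ (ht (it K n (x1 K)) : ℝ) ≤ c₂ * (n : ℝ) ^ 4 := by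
  have hS : ∀ k : ℕ, 1 ≤ k → (1 / 4 : ℝ) * 4 ^ k ≤ hx ((2 ^ k) • S0 K) := by
    intro k hk
    obtain ⟨k, rfl⟩ : ∃ j, k = j + 1 := ⟨k - 1, by omega⟩
    obtain ⟨a, b, hcop, hb, hab, hk, y, h, e⟩ := two_pow_sg (tt_transc K) k
    have h1 := le_ht_comp (td_ne K) (tn_td K) (lt_of_le_of_lt (td_deg K) (tn_deg K)) hcop hab
    rw [← tt_rep] at h1
    have h2 : hx ((2 ^ (k + 1)) • S0 K) = ht (Polynomial.aeval (tt K) a /
        Polynomial.aeval (tt K) b) := by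
      rw [S0, e]; rfl
    rw [h2]
    have h3 : (4 : ℝ) ^ k ≤ (a.natDegree : ℝ) := by exact_mod_cast hk.le
    have h4 : (a.natDegree : ℝ) ≤ ht (Polynomial.aeval (tt K) a /
        Polynomial.aeval (tt K) b) := by exact_mod_cast h1
    rw [pow_succ]
    linarith
  obtain ⟨c₁, c₂, h₁, h₂, n₀, h⟩ := (parLe K).quartic (P1 K) (P2 K - P1 K) (S0 K)
    (by norm_num : (0 : ℝ) < 1 / 4) hS
  refine ⟨c₁, c₂, h₁, h₂, n₀, fun n hn => ?_⟩
  rw [it_x1]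
  exact h n hn

end Points

end Pool.Agent.H950R2.Sil
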