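import Mathlib
import Pool.Agent.H950R2.Sil.Iter
import Pool.Agent.H950R2.Sil.Defs

set_option autoImplicit false

/-! # Forms, dehomogenization and rational maps -/

namespace Pool.Agent.H950R2.Sil

open MvPolynomial

section Factor

variable {σ K : Type*} [Field K]

/-- `X i ↦ t X i` -/
noncomputable def Φ (σ K : Type*) [Field K] : MvPolynomial σ K →ₐ[K] Polynomial (MvPolynomial σ K) :=
  aeval fun i => Polynomial.C (X i) * Polynomial.X

lemma Φ_monomial (c : σ →₀ ℕ) (a : K) :
    Φ σ K (monomial c a) = Polynomial.C (monomial c a) * Polynomial.X ^ c.degree := by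
  rw [Φ, aeval_monomial, monomial_eq, Finsupp.prod, Finsupp.prod, map_mul, map_prod]
  simp only [mul_pow, map_pow]
  rw [Finset.prod_mul_distrib, Finset.prod_pow_eq_pow_sum, Finsupp.degree_apply, ← mul_assoc]
  rfl

lemma Φ_coeff (p : MvPolynomial σ K) (j : ℕ) :
    (Φ σ K p).coeff j = homogeneousComponent j p := by
  induction p using MvPolynomial.induction_on' with
  | monomial c a =>
    rw [Φ_monomial, Polynomial.coeff_C_mul_X_pow]
    rw [homogeneousComponent_of_mem (isHomogeneous_monomial a rfl)]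
  | add p q hp hq => rw [map_add, Polynomial.coeff_add, hp, hq, map_add]

lemma Φ_homog {p : MvPolynomial σ K} {e : ℕ} (hp : p.IsHomogeneous e) :
    Φ σ K p = Polynomial.C p * Polynomial.X ^ e := by
  ext1 j
  rw [Φ_coeff, Polynomial.coeff_C_mul_X_pow, homogeneousComponent_of_mem hp]

lemma Φ_ne_zero {p : MvPolynomial σ K} (hp : p ≠ 0) : Φ σ K p ≠ 0 := by
  intro h
  apply hp
  rw [← sum_homogeneousComponent p]
  apply Finset.sum_eq_zero
  intro j _
  rw [← Φ_coeff, h, Polynomial.coeff_zero]

/-- a factor of a nonzero homogeneous polynomial is homogeneous -/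
lemma homog_of_mul {p q : MvPolynomial σ K} {D : ℕ} (h : (p * q).IsHomogeneous D)
    (h0 : p * q ≠ 0) : ∃ e, p.IsHomogeneous e ∧ q.IsHomogeneous (D - e) ∧ e ≤ D := by
  have hp0 : p ≠ 0 := left_ne_zero_of_mul h0
  have hq0 : q ≠ 0 := right_ne_zero_of_mul h0
  have hP := Φ_ne_zero hp0
  have hQ := Φ_ne_zero hq0
  have h1 : Φ σ K p * Φ σ K q = Polynomial.C (p * q) * Polynomial.X ^ D := by
    rw [← map_mul, Φ_homog h]
  have hdeg : (Φ σ K p).natDegree + (Φ σ K q).natDegree = D := by
    rw [← Polynomial.natDegree_mul hP hQ, h1, Polynomial.natDegree_C_mul_X_pow _ _ h0]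
  have htr : (Φ σ K p).natTrailingDegree + (Φ σ K q).natTrailingDegree = D := by
    rw [← Polynomial.natTrailingDegree_mul hP hQ, h1, Polynomial.C_mul_X_pow_eq_monomial,
      Polynomial.natTrailingDegree_monomial h0]
  have hle1 := Polynomial.natTrailingDegree_le_natDegree (Φ σ K p)
  have hle2 := Polynomial.natTrailingDegree_le_natDegree (Φ σ K q)
  have key : ∀ r : MvPolynomial σ K, (Φ σ K r).natTrailingDegree = (Φ σ K r).natDegree →
      r.IsHomogeneous (Φ σ K r).natDegree := by
    intro r hr c hc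
    have h2 : (Φ σ K r).coeff c.degree ≠ 0 := by
      rw [Φ_coeff]
      intro h
      have h5 := congrArg (coeff c) h
      rw [coeff_homogeneousComponent, if_pos rfl, coeff_zero] at h5
      exact hc h5
    have h3 := Polynomial.natTrailingDegree_le_of_ne_zero h2
    have h4 := Polynomial.le_natDegree_of_ne_zero h2
    have h5 : Finsupp.weight 1 c = c.degree := by rw [Finsupp.degree_eq_weight_one]; rfl
    rw [h5]
    omega
  refine ⟨(Φ σ K p).natDegree, key p (by omega), ?_, by omega⟩
  have := key q (by omega)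
  rwa [show (Φ σ K q).natDegree = D - (Φ σ K p).natDegree by omega] at this

end Factor

section Dehom

variable {K : Type*} [Field K] {m : ℕ}

/-- dehomogenization -/
noncomputable def dh : MvPolynomial (Fin (m + 1)) K →ₐ[K] MvPolynomial (Fin m) K :=
  aeval (Fin.cons 1 X : Fin (m + 1) → MvPolynomial (Fin m) K)

/-- homogenization in degree `D` -/
noncomputable def hom (D : ℕ) (p : MvPolynomial (Fin m) K) :
    MvPolynomial (Fin (m + 1)) K :=
  ∑ c ∈ p.support, monomial (Finsupp.cons (D - c.degree) c) (coeff c p)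

lemma hom_homog {D : ℕ} {p : MvPolynomial (Fin m) K} (hD : p.totalDegree ≤ D) :
    (hom D p).IsHomogeneous D := by
  refine IsHomogeneous.sum _ _ _ fun c hc => isHomogeneous_monomial _ ?_
  have h1 : c.degree ≤ D := by
    refine le_trans ?_ hD
    have := le_totalDegree hc
    rwa [Finsupp.sum_fintype _ _ (by simp), ← Finsupp.degree_eq_sum] at this
  rw [Finsupp.degree_eq_sum, Fin.sum_univ_succ]
  simp only [Finsupp.cons_zero, Finsupp.cons_succ]
  rw [← Finsupp.degree_eq_sum]
  omega

lemma dh_monomial (c : Fin (m + 1) →₀ ℕ) (a : K) :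
    dh (monomial c a) = monomial (Finsupp.tail c) a := by
  rw [dh, aeval_monomial, Finsupp.prod_fintype _ _ (by simp), Fin.prod_univ_succ, monomial_eq,
    Finsupp.prod_fintype _ _ (by simp)]
  simp [Finsupp.tail_apply, MvPolynomial.algebraMap_eq]

lemma dh_hom (D : ℕ) (p : MvPolynomial (Fin m) K) : dh (hom D p) = p := by
  rw [hom, map_sum]
  simp only [dh_monomial, Finsupp.tail_cons]
  exact (p.as_sum).symm

lemma dh_coeff {u : MvPolynomial (Fin (m + 1)) K} {D : ℕ} (hu : u.IsHomogeneous D)
    {c : Fin (m + 1) →₀ ℕ} (hc : c.degree = D) : coeff (Finsupp.tail c) (dh u) = coeff c u := by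
  classical
  have hsum : dh u = ∑ b ∈ u.support, monomial (Finsupp.tail b) (coeff b u) := by
    conv_lhs => rw [u.as_sum, map_sum]
    simp only [dh_monomial]
  have hdeg : ∀ b : Fin (m + 1) →₀ ℕ, b.degree = b 0 + (Finsupp.tail b).degree := by
    intro b
    rw [Finsupp.degree_eq_sum, Fin.sum_univ_succ, Finsupp.degree_eq_sum]
    rfl
  rw [hsum, coeff_sum]
  simp only [coeff_monomial]
  rw [Finset.sum_eq_single c]
  · rw [if_pos rfl]
  · intro b hb hbc
    rw [if_neg]
    intro htail
    apply hbc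
    have hbD : b.degree = D := by
      have := hu (mem_support_iff.mp hb)
      rw [← this, Finsupp.degree_eq_weight_one]; rfl
    have h0 : b 0 = c 0 := by
      have h1 := hdeg b
      have h2 := hdeg c
      rw [htail] at h1
      omega
    rw [← Finsupp.cons_tail b, ← Finsupp.cons_tail c, htail, h0]
  · intro hc'
    rw [if_pos rfl]
    exact notMem_support_iff.mp hc'

/-- dehomogenization is injective on forms of one degree -/
lemma eq_zero_of_dh {u : MvPolynomial (Fin (m + 1)) K} {D : ℕ} (hu : u.IsHomogeneous D)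
    (h : dh u = 0) : u = 0 := by
  ext c
  rw [coeff_zero]
  by_contra hc
  have hcD : c.degree = D := by
    have := hu hc
    rw [← this, Finsupp.degree_eq_weight_one]; rfl
  have := dh_coeff hu hcD
  rw [h, coeff_zero] at this
  exact hc this.symm

lemma eq_of_dh {u v : MvPolynomial (Fin (m + 1)) K} {D : ℕ} (hu : u.IsHomogeneous D)
    (hv : v.IsHomogeneous D) (h : dh u = dh v) : u = v := by
  rw [← sub_eq_zero]
  refine eq_zero_of_dh (hu.sub hv) ?_
  rw [map_sub, h, sub_self]

lemma dh_deg {u : MvPolynomial (Fin (m + 1)) K} {D : ℕ} (hu : u.IsHomogeneous D) :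
    (dh u).totalDegree ≤ D := by
  have hsum : dh u = ∑ b ∈ u.support, monomial (Finsupp.tail b) (coeff b u) := by
    conv_lhs => rw [u.as_sum, map_sum]
    simp only [dh_monomial]
  rw [hsum]
  refine (totalDegree_finsetSum _ _).trans (Finset.sup_le fun b hb => ?_)
  refine (totalDegree_monomial_le _ _).trans ?_
  have hbD : b.degree = D := by
    have := hu (mem_support_iff.mp hb)
    rw [← this, Finsupp.degree_eq_weight_one]; rfl
  rw [Finsupp.sum_fintype _ _ (by simp), ← hbD, Finsupp.degree_eq_sum, Fin.sum_univ_succ]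
  simp only [Finsupp.tail_apply, id]
  exact Nat.le_add_left _ _

lemma dh_inj_ne {u : MvPolynomial (Fin (m + 1)) K} {D : ℕ} (hu : u.IsHomogeneous D) (h : u ≠ 0) :
    dh u ≠ 0 := fun h0 => h (eq_zero_of_dh hu h0)

end Dehom

section Red

variable {K : Type*} [Field K] {N : ℕ}

lemma exists_reduced {Q : Fin (N + 1) → MvPolynomial (Fin (N + 1)) K} {D : ℕ}
    (hQ : ∀ i, (Q i).IsHomogeneous D) (h0 : ∃ i, Q i ≠ 0) :
    ∃ (f : RatMap K N) (G : MvPolynomial (Fin (N + 1)) K) (e : ℕ), G ≠ 0 ∧ G.IsHomogeneous e ∧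
      ∀ i, Q i = G * f.form i := by
  classical
  obtain ⟨i₀, hi₀⟩ := h0
  let _ : NormalizedGCDMonoid (MvPolynomial (Fin (N + 1)) K) := Classical.arbitrary _
  obtain ⟨g, hg, hg1⟩ := Finset.extract_gcd Q (s := Finset.univ) ⟨0, Finset.mem_univ _⟩
  set G := Finset.univ.gcd Q with hG
  have hG0 : G ≠ 0 := by
    intro h
    apply hi₀
    rw [hg i₀ (Finset.mem_univ _), h, zero_mul]
  have hg0 : g i₀ ≠ 0 := by
    intro h
    apply hi₀
    rw [hg i₀ (Finset.mem_univ _), h, mul_zero]
  obtain ⟨e, hGe, hg0e, heD⟩ : ∃ e, G.IsHomogeneous e ∧ (g i₀).IsHomogeneous (D - e) ∧ e ≤ D :=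
    homog_of_mul (by rw [← hg i₀ (Finset.mem_univ _)]; exact hQ i₀)
      (by rw [← hg i₀ (Finset.mem_univ _)]; exact hi₀)
  have hghom : ∀ i, (g i).IsHomogeneous (D - e) := by
    intro i
    by_cases hi : g i = 0
    · rw [hi]; exact isHomogeneous_zero _ _ _
    · obtain ⟨e', h1, h2, -⟩ := homog_of_mul (p := G) (q := g i) (D := D)
        (by rw [← hg i (Finset.mem_univ _)]; exact hQ i) (mul_ne_zero hG0 hi)
      rwa [h1.inj_right hGe hG0] at h2
  have hcop : ∀ H : MvPolynomial (Fin (N + 1)) K, (∀ i, H ∣ g i) → IsUnit H := by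
    intro H hH
    apply isUnit_of_dvd_one
    rw [← hg1]
    exact Finset.dvd_gcd fun i _ => hH i
  exact ⟨⟨D - e, g, hghom, hcop⟩, G, e, hG0, hGe, fun i => hg i (Finset.mem_univ _)⟩

/-- a form dividing all `u f_j` divides `u` if the `f_j` are coprime -/
lemma dvd_of_dvd_mul_form (f : RatMap K N) {d u : MvPolynomial (Fin (N + 1)) K}
    (h : ∀ j, d ∣ u * f.form j) : d ∣ u := by
  classical
  let _ : NormalizedGCDMonoid (MvPolynomial (Fin (N + 1)) K) := Classical.arbitrary _
  have h1 : d ∣ Finset.univ.gcd fun j => u * f.form j := Finset.dvd_gcd fun j _ => h j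
  have h2 := Finset.gcd_mul_left' Finset.univ f.form u
  have h3 : IsUnit (Finset.univ.gcd f.form) :=
    f.coprime _ fun i => Finset.gcd_dvd (Finset.mem_univ i)
  have h4 : d ∣ u * Finset.univ.gcd f.form := h1.trans h2.dvd
  exact (h3.dvd_mul_right).mp h4

/-- the function field in `N` variables -/
abbrev FN (K : Type*) [Field K] (N : ℕ) : Type _ := FF (Fin N) K

/-- the homogeneous coordinates `(1, r)` -/
noncomputable abbrev co (r : Fin N → FN K N) : Fin (N + 1) → FN K N := Fin.cons 1 r

/-- the affine coordinates -/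
noncomputable abbrev x0 (K : Type*) [Field K] (N : ℕ) : Fin N → FN K N :=
  fun i => ι (X i : MvPolynomial (Fin N) K)

/-- `f` is given in affine coordinates by the rational functions `r` -/
def HasCoords (f : RatMap K N) (r : Fin N → FN K N) : Prop :=
  ∃ μ : FN K N, μ ≠ 0 ∧ ∀ i, ι (dh (f.form i)) = μ * co r i

lemma ι_dh (u : MvPolynomial (Fin (N + 1)) K) : ι (dh u) = aeval (co (x0 K N)) u := by
  have h : (IsScalarTower.toAlgHom K (MvPolynomial (Fin N) K) (FN K N)).comp dh =
      aeval (co (x0 K N)) := by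
    apply MvPolynomial.algHom_ext
    intro i
    refine Fin.cases ?_ (fun j => ?_) i
    · simp [dh]
    · simp [dh]
  exact DFunLike.congr_fun h u

lemma aeval_scale {A : Type*} [CommRing A] [Algebra K A] {u : MvPolynomial (Fin (N + 1)) K}
    {d : ℕ} (hu : u.IsHomogeneous d) (c : A) (w : Fin (N + 1) → A) :
    aeval (fun i => c * w i) u = c ^ d * aeval w u := by
  rw [aeval_def, aeval_def, eval₂_eq', eval₂_eq', Finset.mul_sum]
  refine Finset.sum_congr rfl fun s hs => ?_
  have hdeg : ∑ i, s i = d := by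
    have h := hu (mem_support_iff.mp hs)
    have h2 : Finsupp.degree s = d := by
      rw [← h, Finsupp.degree_eq_weight_one]; rfl
    rw [← h2, Finsupp.degree_eq_sum]
  simp only [mul_pow]
  rw [Finset.prod_mul_distrib, Finset.prod_pow_eq_pow_sum, hdeg]
  ring

/-- generic evaluation after an endomorphism -/
lemma aeval_hom {u : MvPolynomial (Fin (N + 1)) K} {d : ℕ} (hu : u.IsHomogeneous d)
    (φ : FN K N →ₐ[K] FN K N) (c : FN K N) :
    aeval (fun i => c * co (fun j => φ (x0 K N j)) i) u = c ^ d * φ (ι (dh u)) := by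
  rw [aeval_scale hu]
  congr 1
  rw [ι_dh]
  have h : φ.comp (aeval (co (x0 K N))) = aeval (co fun j => φ (x0 K N j)) := by
    apply MvPolynomial.algHom_ext
    intro i
    refine Fin.cases ?_ (fun j => ?_) i
    · simp
    · simp
  exact (DFunLike.congr_fun h u).symm

lemma co_zero (r : Fin N → FN K N) : co r 0 = 1 := rfl

lemma exists_hasCoords (r : Fin N → FN K N) : ∃ f : RatMap K N, HasCoords f r := by
  obtain ⟨⟨b, hb⟩, hint⟩ := IsLocalization.exist_integer_multiples_of_finite
    (nonZeroDivisors (MvPolynomial (Fin N) K)) r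
  have hb0 : b ≠ 0 := nonZeroDivisors.ne_zero hb
  choose p hp using hint
  have hp' : ∀ i, r i * ι b = ι (p i) := by
    intro i
    rw [ι, ι, hp i, mul_comm]
    simp [Algebra.smul_def]
  set D := max b.totalDegree (Finset.univ.sup fun i => (p i).totalDegree) with hD
  let bp : Fin (N + 1) → MvPolynomial (Fin N) K := Fin.cons b p
  have hbpD : ∀ i, (bp i).totalDegree ≤ D := by
    intro i
    refine Fin.cases ?_ (fun j => ?_) i
    · exact le_max_left _ _
    · exact (Finset.le_sup (f := fun i => (p i).totalDegree) (Finset.mem_univ j)).trans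
        (le_max_right _ _)
  have hbp : ∀ i, ι (bp i) = ι b * co r i := by
    intro i
    refine Fin.cases ?_ (fun j => ?_) i
    · simp [bp]
    · rw [show bp j.succ = p j from rfl, ← hp' j, show co r j.succ = r j from rfl, mul_comm]
  obtain ⟨f, G, e, hG, hGe, hfG⟩ := exists_reduced (Q := fun i => hom D (bp i))
    (fun i => hom_homog (hbpD i)) ⟨0, by
      intro h
      have := dh_hom D (bp 0)
      rw [h, map_zero] at this
      exact hb0 this.symm⟩
  have hGd := ι_ne_zero (dh_inj_ne hGe hG)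
  refine ⟨f, ι b / ι (dh G), div_ne_zero (ι_ne_zero hb0) hGd, fun i => ?_⟩
  have h1 := congrArg (fun u => ι (dh u)) (hfG i)
  simp only [dh_hom, map_mul] at h1
  rw [hbp i] at h1
  rw [div_mul_eq_mul_div, eq_div_iff hGd, h1, mul_comm]

lemma deg_le {f : RatMap K N} {r : Fin N → FN K N} (hf : HasCoords f r)
    {q : Fin (N + 1) → MvPolynomial (Fin N) K} {l : FN K N} (hl : l ≠ 0)
    (hq : ∀ i, ι (q i) = l * co r i) {e : ℕ} (he : ∀ i, (q i).totalDegree ≤ e) : f.deg ≤ e := by
  obtain ⟨μ, hμ, hfr⟩ := hf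
  have hQ : ∀ i, (hom e (q i)).IsHomogeneous e := fun i => hom_homog (he i)
  have hcross : ∀ i j, hom e (q i) * f.form j = hom e (q j) * f.form i := by
    intro i j
    refine eq_of_dh ((hQ i).mul (f.homogeneous j)) ((hQ j).mul (f.homogeneous i)) ?_
    apply ι_inj
    rw [map_mul, map_mul, dh_hom, dh_hom, ι, ι, map_mul, map_mul]
    have h1 := hq i
    have h2 := hq j
    have h3 := hfr i
    have h4 := hfr j
    simp only [ι] at h1 h2 h3 h4
    rw [h1, h2, h3, h4]
    ring
  have hdvd : f.form 0 ∣ hom e (q 0) :=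
    dvd_of_dvd_mul_form f fun j => ⟨hom e (q j), by rw [hcross 0 j]; ring⟩
  have hq0 : hom e (q 0) ≠ 0 := by
    intro h
    have h1 := dh_hom e (q 0)
    rw [h, map_zero] at h1
    have h2 := hq 0
    rw [← h1, ι, map_zero, co_zero, mul_one] at h2
    exact hl h2.symm
  obtain ⟨H, hH⟩ := hdvd
  have hf0 : f.form 0 ≠ 0 := by
    intro h
    rw [h, zero_mul] at hH
    exact hq0 hH
  obtain ⟨e', h1, -, h3⟩ := homog_of_mul (p := f.form 0) (q := H) (D := e)
    (by rw [← hH]; exact hQ 0) (by rw [← hH]; exact hq0)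
  have := h1.inj_right (f.homogeneous 0) hf0
  omega

end Red

end Pool.Agent.H950R2.Sil
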