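import Mathlib
import Pool.Agent.H950R2.Sil.Rat

set_option autoImplicit false

/-! # Iterates of rational maps and endomorphisms of the function field -/

namespace Pool.Agent.H950R2.Sil

open MvPolynomial

variable {K : Type*} [Field K] {N : ℕ}

lemma map_co (ψ : FN K N →ₐ[K] FN K N) (r : Fin N → FN K N) (i : Fin (N + 1)) :
    ψ (co r i) = co (fun j => ψ (r j)) i := by
  refine Fin.cases ?_ (fun j => ?_) i
  · exact map_one ψ
  · rfl

lemma co_ne (r : Fin N → FN K N) : co r ≠ 0 := fun h => one_ne_zero (congrFun h 0)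

/-- generic values of a substitution -/
lemma ι_dh_comp {f : RatMap K N} {v : Fin (N + 1) → MvPolynomial (Fin (N + 1)) K}
    {φ ψ : FN K N →ₐ[K] FN K N} (hf : HasCoords f fun j => φ (x0 K N j)) {l : FN K N} (hl : l ≠ 0)
    (hv : ∀ i, ι (dh (v i)) = l * co (fun j => ψ (x0 K N j)) i) :
    ∃ l' : FN K N, l' ≠ 0 ∧
      ∀ i, ι (dh (comp f.form v i)) = l' * co (fun j => (ψ.comp φ) (x0 K N j)) i := by
  obtain ⟨μ, hμ, hfr⟩ := hf
  refine ⟨l ^ f.deg * ψ μ, mul_ne_zero (pow_ne_zero _ hl) (by simpa using hμ), fun i => ?_⟩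
  have hv' : (fun i => aeval (co (x0 K N)) (v i)) =
      fun i => l * co (fun j => ψ (x0 K N j)) i := by
    funext i
    rw [← ι_dh, hv i]
  rw [ι_dh, comp, aeval_bind₁, hv', aeval_hom (f.homogeneous i), hfr i, map_mul, map_co, mul_assoc]
  rfl

lemma iter_homog (f : RatMap K N) (n : ℕ) (i : Fin (N + 1)) :
    (f.iter n i).IsHomogeneous (f.deg ^ n) := by
  induction n generalizing i with
  | zero => simpa [RatMap.iter] using isHomogeneous_X K i
  | succ n ih =>
    have h := (f.homogeneous i).aeval (f.iter n) ih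
    rw [RatMap.iter, comp, pow_succ]
    exact h

lemma iter_coords {f : RatMap K N} {φ : FN K N →ₐ[K] FN K N}
    (hf : HasCoords f fun j => φ (x0 K N j)) {ψ : ℕ → (FN K N →ₐ[K] FN K N)}
    (h0 : ψ 0 = AlgHom.id K _) (hs : ∀ n, ψ (n + 1) = (ψ n).comp φ) (n : ℕ) :
    ∃ l : FN K N, l ≠ 0 ∧ ∀ i, ι (dh (f.iter n i)) = l * co (fun j => ψ n (x0 K N j)) i := by
  induction n with
  | zero =>
    refine ⟨1, one_ne_zero, fun i => ?_⟩
    rw [h0]
    refine Fin.cases ?_ (fun j => ?_) i
    · simp [RatMap.iter, dh]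
    · simp [RatMap.iter, dh]
  | succ n ih =>
    obtain ⟨l, hl, h⟩ := ih
    rw [hs]
    exact ι_dh_comp hf hl h

/-- the reduced iterates -/
lemma exists_iterate {f : RatMap K N} {φ : FN K N →ₐ[K] FN K N}
    (hf : HasCoords f fun j => φ (x0 K N j)) {ψ : ℕ → (FN K N →ₐ[K] FN K N)}
    (h0 : ψ 0 = AlgHom.id K _) (hs : ∀ n, ψ (n + 1) = (ψ n).comp φ) (n : ℕ) :
    ∃ g : RatMap K N, f.IsIterate n g ∧ HasCoords g fun j => ψ n (x0 K N j) := by
  obtain ⟨l, hl, h⟩ := iter_coords hf h0 hs n
  have hne : f.iter n 0 ≠ 0 := by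
    intro h1
    have h2 := h 0
    rw [h1, map_zero, ι, map_zero, co_zero, mul_one] at h2
    exact hl h2.symm
  obtain ⟨g, G, e, hG, hGe, hfG⟩ := exists_reduced (Q := f.iter n) (iter_homog f n) ⟨0, hne⟩
  have hGd := ι_ne_zero (dh_inj_ne hGe hG)
  refine ⟨g, ⟨G, hG, hfG⟩, l / ι (dh G), div_ne_zero hl hGd, fun i => ?_⟩
  have h1 := congrArg (fun u => ι (dh u)) (hfG i)
  simp only [map_mul] at h1
  rw [h i] at h1
  rw [div_mul_eq_mul_div, eq_div_iff hGd, h1, mul_comm]

/-- two reduced tuples of the same iterate have the same degree -/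
lemma iterate_deg_unique {f g g' : RatMap K N} {n : ℕ} (h : f.IsIterate n g)
    (h' : f.IsIterate n g') : g.deg = g'.deg := by
  have key : ∀ {g g' : RatMap K N}, f.IsIterate n g → f.IsIterate n g' → g.deg ≤ g'.deg := by
    rintro g g' ⟨G, hG, hg⟩ ⟨G', hG', hg'⟩
    have h1 : G ∣ G' := dvd_of_dvd_mul_form g' fun j => ⟨g.form j, by rw [← hg, ← hg']⟩
    obtain ⟨H, rfl⟩ := h1
    have h2 : ∀ i, g.form i = H * g'.form i := by
      intro i
      apply mul_left_cancel₀ hG
      rw [← hg, hg', mul_assoc]
    have h3 : IsUnit H := g.coprime H fun i => ⟨g'.form i, h2 i⟩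
    obtain ⟨i, hi⟩ : ∃ i, g.form i ≠ 0 := by
      by_contra hcon
      push Not at hcon
      have := g.coprime 0 fun i => by rw [hcon i]
      exact not_isUnit_zero this
    have hi' : g'.form i ≠ 0 := by
      intro h
      rw [h2, h, mul_zero] at hi
      exact hi rfl
    have hHd := MvPolynomial.isUnit_iff_totalDegree_of_isReduced.mp h3
    have e1 := (g.homogeneous i).totalDegree hi
    have e2 := (g'.homogeneous i).totalDegree hi'
    rw [h2 i, tdeg_mul (right_ne_zero_of_mul (h2 i ▸ hi) |> fun _ => left_ne_zero_of_mul (h2 i ▸ hi))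
      hi'] at e1
    omega
  exact le_antisymm (key h h') (key h' h)

/-- dominance -/
lemma dominant_of_coords {f : RatMap K N} {r : Fin N → FN K N} (hf : HasCoords f r)
    (hr : AlgebraicIndependent K r) (hd : f.deg ≠ 0) : f.Dominant := by
  rw [RatMap.Dominant, algebraicIndependent_iff]
  intro p hp
  obtain ⟨μ, hμ, hfr⟩ := hf
  -- all homogeneous components of `p` give relations
  have hcomp : ∀ e, aeval f.form (homogeneousComponent e p) = 0 := by
    intro e
    have h1 : aeval f.form p = ∑ j ∈ Finset.range (p.totalDegree + 1),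
        aeval f.form (homogeneousComponent j p) := by
      conv_lhs => rw [← sum_homogeneousComponent p]
      rw [map_sum]
    have h2 : ∀ j, (aeval f.form (homogeneousComponent j p)).IsHomogeneous (f.deg * j) :=
      fun j => (homogeneousComponent_isHomogeneous j p).aeval f.form f.homogeneous
    by_cases he : e < p.totalDegree + 1
    · have h3 := congrArg (homogeneousComponent (f.deg * e)) (hp.symm.trans h1)
      rw [map_zero, map_sum] at h3
      rw [Finset.sum_eq_single e] at h3
      · rw [homogeneousComponent_of_mem (h2 e), if_pos rfl] at h3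
        exact h3.symm
      · intro j _ hj
        rw [homogeneousComponent_of_mem (h2 j), if_neg]
        intro h4
        exact hj (Nat.eq_of_mul_eq_mul_left (Nat.pos_of_ne_zero hd) h4).symm
      · intro h4
        exact absurd (Finset.mem_range.mpr he) h4
    · rw [homogeneousComponent_eq_zero _ _ (by omega), map_zero]
  rw [← sum_homogeneousComponent p]
  refine Finset.sum_eq_zero fun e _ => ?_
  have hhom := homogeneousComponent_isHomogeneous e p
  refine eq_zero_of_dh hhom ?_
  -- evaluate at the generic point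
  have h1 : aeval (co r) (homogeneousComponent e p) = 0 := by
    have h2 := congrArg (fun u => aeval (co (x0 K N)) u) (hcomp e)
    simp only [map_zero] at h2
    have h3 : aeval (co (x0 K N)) (aeval f.form (homogeneousComponent e p)) =
        aeval (fun i => μ * co r i) (homogeneousComponent e p) := by
      have h4 : (aeval (co (x0 K N))).comp (aeval f.form) = aeval (fun i => μ * co r i) := by
        apply MvPolynomial.algHom_ext
        intro i
        rw [AlgHom.comp_apply, aeval_X, aeval_X, ← ι_dh, hfr i]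
      exact DFunLike.congr_fun h4 _
    rw [h3, aeval_scale hhom] at h2
    exact (mul_eq_zero.mp h2).resolve_left (pow_ne_zero _ hμ)
  have h5 : aeval (co r) (homogeneousComponent e p) = aeval r (dh (homogeneousComponent e p)) := by
    have h6 : aeval (co r) = (aeval r).comp (dh (K := K) (m := N)) := by
      apply MvPolynomial.algHom_ext
      intro i
      refine Fin.cases ?_ (fun j => ?_) i
      · simp [dh]
      · simp [dh]
    rw [h6]; rfl
  rw [h5] at h1
  exact (algebraicIndependent_iff.mp hr) _ h1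

end Pool.Agent.H950R2.Sil
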