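import Mathlib
import Pool.Agent.H950R2.Sil.RatIter

set_option autoImplicit false

/-! # Bounds for the degrees -/

namespace Pool.Agent.H950R2.Sil

open MvPolynomial WeierstrassCurve

section Bounds

variable {K : Type*} [Field K]

lemma ht_xf_le {f : RatMap K 3} {r : Fin 3 → F3 K} (hf : HasCoords f r)
    (hr : r 1 + r 2 - 2 * r 0 ≠ 0) : ht (xf (r 0) (r 1) (r 2)) ≤ 3 * f.deg := by
  obtain ⟨μ, hμ, hfr⟩ := hf
  have h0 : ι (dh (f.form 0)) = μ := by rw [hfr 0, co_zero, mul_one]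
  have h1 : ι (dh (f.form 1)) = μ * r 0 := hfr 1
  have h2 : ι (dh (f.form 2)) = μ * r 1 := hfr 2
  have h3 : ι (dh (f.form 3)) = μ * r 2 := hfr 3
  have d0 := dh_deg (f.homogeneous 0)
  have d1 := dh_deg (f.homogeneous 1)
  have d2 := dh_deg (f.homogeneous 2)
  have d3 := dh_deg (f.homogeneous 3)
  generalize dh (f.form 0) = p0 at *
  generalize dh (f.form 1) = p1 at *
  generalize dh (f.form 2) = p2 at *
  generalize dh (f.form 3) = p3 at *
  have e1 : ι (p0 ^ 2 * (p2 + p3 - 2 * p1)) = μ ^ 3 * (r 1 + r 2 - 2 * r 0) := by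
    simp only [ι] at h0 h1 h2 h3 ⊢
    rw [map_mul, map_sub, map_add, map_mul, map_pow, map_ofNat, h0, h1, h2, h3]
    ring
  have e2 : ι (-(p1 * p3 ^ 2 + p1 ^ 2 * (p2 - p3) + p0 ^ 3)) =
      μ ^ 3 * (-(r 0 * r 2 ^ 2 + r 0 ^ 2 * (r 1 - r 2) + 1)) := by
    simp only [ι] at h0 h1 h2 h3 ⊢
    rw [map_neg, map_add, map_add, map_mul, map_mul, map_sub, map_pow, map_pow, map_pow, h0, h1, h2,
      h3]
    ring
  have hμ3 : μ ^ 3 ≠ 0 := pow_ne_zero 3 hμ
  refine ht_le (p := -(p1 * p3 ^ 2 + p1 ^ 2 * (p2 - p3) + p0 ^ 3))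
    (q := p0 ^ 2 * (p2 + p3 - 2 * p1)) ?_ ?_ ?_ ?_
  · intro h
    rw [h, ι, map_zero] at e1
    exact (mul_ne_zero hμ3 hr) e1.symm
  · rw [e1, e2, mul_div_mul_left _ _ hμ3, xf]
  · rw [totalDegree_neg]
    refine dg_add (dg_add ?_ ?_) ?_
    · exact dg_le (dg_mul d1 (dg_pow d3 2)) (by omega)
    · exact dg_le (dg_mul (dg_pow d1 2) (dg_sub d2 d3)) (by omega)
    · exact dg_pow d0 3
  · refine dg_le (dg_mul (dg_pow d0 2) (n := f.deg) (dg_sub (dg_add d2 d3) ?_)) (by omega)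
    exact dg_le (dg_mul (dg_num 2) d1) (by omega)

lemma deg_le_ht {f : RatMap K 3} {r : Fin 3 → F3 K} (hf : HasCoords f r) :
    f.deg ≤ ht (r 0) + ht (r 1) + ht (r 2) := by
  obtain ⟨n0, d0, hd0, -, e0, a0, b0⟩ := exists_rep (r 0)
  obtain ⟨n1, d1, hd1, -, e1, a1, b1⟩ := exists_rep (r 1)
  obtain ⟨n2, d2, hd2, -, e2, a2, b2⟩ := exists_rep (r 2)
  have f0 := ι_ne_zero hd0
  have f1 := ι_ne_zero hd1
  have f2 := ι_ne_zero hd2
  refine deg_le hf (q := Fin.cons (d0 * d1 * d2)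
    ![n0 * d1 * d2, d0 * n1 * d2, d0 * d1 * n2]) (l := ι (d0 * d1 * d2)) ?_ ?_ ?_
  · exact ι_ne_zero (mul_ne_zero (mul_ne_zero hd0 hd1) hd2)
  · intro i
    refine Fin.cases ?_ (fun j => ?_) i
    · simp
    · change ι ((![n0 * d1 * d2, d0 * n1 * d2, d0 * d1 * n2] : Fin 3 → _) j) =
        ι (d0 * d1 * d2) * r j
      fin_cases j
      · change ι (n0 * d1 * d2) = ι (d0 * d1 * d2) * r 0
        rw [e0]
        simp only [ι, map_mul] at *
        field_simp
      · change ι (d0 * n1 * d2) = ι (d0 * d1 * d2) * r 1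
        rw [e1]
        simp only [ι, map_mul] at *
        field_simp
      · change ι (d0 * d1 * n2) = ι (d0 * d1 * d2) * r 2
        rw [e2]
        simp only [ι, map_mul] at *
        field_simp
  · intro i
    refine Fin.cases ?_ (fun j => ?_) i
    · exact dg_mul (dg_mul b0 b1) b2
    · change ((![n0 * d1 * d2, d0 * n1 * d2, d0 * d1 * n2] : Fin 3 → MvPolynomial (Fin 3) K)
        j).totalDegree ≤ _
      fin_cases j
      · exact dg_mul (dg_mul a0 b1) b2
      · exact dg_mul (dg_mul b0 a1) b2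
      · exact dg_mul (dg_mul b0 b1) a2

/-- the height of the second coordinate of a point -/
lemma ht_y {t x y : F3 K} (h : y ^ 2 + y = x ^ 3 + t * x) : ht y ≤ 3 * ht x + ht t := by
  obtain ⟨a, b, hb, -, e1, a1, b1⟩ := exists_rep x
  obtain ⟨u, v, hv, -, e2, a2, b2⟩ := exists_rep t
  have f1 := ι_ne_zero hb
  have f2 := ι_ne_zero hv
  have := ht_add_ht_le (r := y) (s := -1 - y) (A := b ^ 3 * v) (B := -(b ^ 3 * v))
    (C := -(v * a ^ 3 + u * (a * b ^ 2))) (n := 3 * ht x + ht t)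
    (mul_ne_zero (pow_ne_zero 3 hb) hv) (by simp only [ι, map_neg, map_mul, map_pow]; ring) (by
      have e3 : y * (-1 - y) = -(x ^ 3 + t * x) := by rw [← h]; ring
      rw [e3, e1, e2]
      simp only [ι, map_neg, map_mul, map_pow, map_add] at *
      field_simp)
    (dg_le (dg_mul (dg_pow b1 3) b2) (by omega))
    (by rw [totalDegree_neg]; exact dg_le (dg_mul (dg_pow b1 3) b2) (by omega))
    (by
      rw [totalDegree_neg]
      exact dg_add (dg_le (dg_mul b2 (dg_pow a1 3)) (by omega))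
        (dg_le (dg_mul a2 (dg_mul a1 (dg_pow b1 2))) (by omega)))
  omega

end Bounds

end Pool.Agent.H950R2.Sil
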