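import Mathlib
import Pool.Agent.H950R2.Sil.Final

set_option autoImplicit false

/-! # The map is birational -/

namespace Pool.Agent.H950R2.Sil

open MvPolynomial

section

variable {K : Type*} [Field K]

lemma ext_F3 {φ ψ : F3 K →ₐ[K] F3 K} (h : ∀ i, φ (xx K i) = ψ (xx K i)) (z : F3 K) :
    φ z = ψ z := by
  have hp : ∀ p : MvPolynomial (Fin 3) K, φ (ι p) = ψ (ι p) := by
    intro p
    induction p using MvPolynomial.induction_on with
    | C a => rw [algebraMap_C, AlgHom.commutes, AlgHom.commutes]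
    | add p q hp hq => rw [ι, map_add, map_add, map_add, hp, hq]
    | mul_X p i hp => rw [ι, map_mul, map_mul, map_mul, hp, h i]
  obtain ⟨p, q, hq, -, hz, -, -⟩ := exists_rep z
  rw [hz, map_div₀, map_div₀, hp, hp]

lemma map_ai (φ : F3 K →ₐ[K] F3 K) (a m n : F3 K) : φ (ai a m n) = ai (φ a) (φ m) (φ n) := by
  have h1 : φ (xf a m n) = xf (φ a) (φ m) (φ n) := map_xf (φ : F3 K →+* F3 K) _ _ _
  have h2 : φ (xf a n m) = xf (φ a) (φ n) (φ m) := map_xf (φ : F3 K →+* F3 K) _ _ _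
  rw [ai, ai, map_div₀, map_sub, map_sub, map_pow, h1, h2, map_sub]

lemma map_mj (φ : F3 K →ₐ[K] F3 K) (a m n : F3 K) : φ (mj a m n) = mj (φ a) (φ m) (φ n) := by
  have h1 : φ (xf a m n) = xf (φ a) (φ m) (φ n) := map_xf (φ : F3 K →+* F3 K) _ _ _
  rw [mj, mj, map_sub, map_sub, map_div₀, h1]

variable (K)

lemma fS_inv (z : F3 K) : fS K (fS K z) = z := by
  obtain ⟨h0, h1, h2⟩ := fS_xx K
  refine ext_F3 (φ := (fS K).comp (fS K)) (ψ := AlgHom.id K _) (fun i => ?_) z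
  rw [AlgHom.comp_apply, AlgHom.id_apply]
  fin_cases i
  · change fS K (fS K (xx K 0)) = xx K 0; rw [h0, h0]
  · change fS K (fS K (xx K 1)) = xx K 1; rw [h1, h2]
  · change fS K (fS K (xx K 2)) = xx K 2; rw [h2, h1]

lemma fI_inv (z : F3 K) : fI K (fI K z) = z := by
  obtain ⟨h0, h1, h2⟩ := fI_xx K
  refine ext_F3 (φ := (fI K).comp (fI K)) (ψ := AlgHom.id K _) (fun i => ?_) z
  rw [AlgHom.comp_apply, AlgHom.id_apply]
  fin_cases i
  · change fI K (fI K (xx K 0)) = xx K 0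
    rw [h0, map_ai, h0, h1, h2]
    exact (ai_eqs (D_ne K) (mn_ne K) (ai_ne K)).2.2.2
  · change fI K (fI K (xx K 1)) = xx K 1; rw [h1, h1]
  · change fI K (fI K (xx K 2)) = xx K 2; rw [h2, h2]

lemma fJ_inv (z : F3 K) : fJ K (fJ K z) = z := by
  obtain ⟨h0, h1, h2⟩ := fJ_xx K
  refine ext_F3 (φ := (fJ K).comp (fJ K)) (ψ := AlgHom.id K _) (fun i => ?_) z
  rw [AlgHom.comp_apply, AlgHom.id_apply]
  fin_cases i
  · change fJ K (fJ K (xx K 0)) = xx K 0; rw [h0, h0]
  · change fJ K (fJ K (xx K 1)) = xx K 1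
    rw [h1, map_mj, h0, h1, h2]
    exact (mj_eqs (D_ne K) (a_ne K) (mj_ne1 K) (mj_ne2 K)).2.2.2
  · change fJ K (fJ K (xx K 2)) = xx K 2; rw [h2, h2]

/-- the inverse endomorphism -/
noncomputable def phInv : F3 K →ₐ[K] F3 K :=
  (fS K).comp ((fI K).comp ((fJ K).comp ((fI K).comp ((fJ K).comp (fI K)))))

lemma ph_phInv (z : F3 K) : ph K (phInv K z) = z := by
  simp only [ph, phInv, AlgHom.comp_apply, fS_inv, fI_inv, fJ_inv]

lemma phInv_ph (z : F3 K) : phInv K (ph K z) = z := by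
  simp only [ph, phInv, AlgHom.comp_apply, fS_inv, fI_inv, fJ_inv]

variable {K}

lemma comp_eq_of_inv {f g : RatMap K 3} {φ ψ : F3 K →ₐ[K] F3 K}
    (hf : HasCoords f fun j => φ (x0 K 3 j)) (hg : HasCoords g fun j => ψ (x0 K 3 j))
    (h : ∀ z, ψ (φ z) = z) :
    ∃ G : MvPolynomial (Fin 4) K, G ≠ 0 ∧ ∀ i, comp f.form g.form i = G * X i := by
  obtain ⟨μ, hμ, hgr⟩ := hg
  obtain ⟨l, hl, h1⟩ := ι_dh_comp hf hμ hgr
  have h2 : ∀ i, ι (dh (comp f.form g.form i)) = l * co (x0 K 3) i := by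
    intro i
    rw [h1 i]
    have : (fun j => (ψ.comp φ) (x0 K 3 j)) = x0 K 3 := by
      funext j
      exact h _
    rw [this]
  have hhom : ∀ i, (comp f.form g.form i).IsHomogeneous (g.deg * f.deg) := fun i =>
    (f.homogeneous i).aeval g.form g.homogeneous
  have hX : ∀ i, ι (dh (X i : MvPolynomial (Fin 4) K)) = co (x0 K 3) i := by
    intro i
    rw [ι_dh, aeval_X]
  have hcross : ∀ i, comp f.form g.form i * X 0 = comp f.form g.form 0 * X i := by
    intro i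
    refine eq_of_dh ((hhom i).mul (isHomogeneous_X K 0)) ((hhom 0).mul (isHomogeneous_X K i)) ?_
    apply ι_inj
    have e1 := h2 i
    have e2 := h2 0
    have e3 := hX i
    have e4 := hX 0
    simp only [ι] at e1 e2 e3 e4 ⊢
    rw [map_mul, map_mul, map_mul, map_mul, e1, e2, e3, e4]
    ring
  have hdvd : (X 0 : MvPolynomial (Fin 4) K) ∣ comp f.form g.form 0 := by
    have h3 : (X 0 : MvPolynomial (Fin 4) K) ∣ comp f.form g.form 0 * X 1 :=
      ⟨comp f.form g.form 1, by rw [← hcross 1]; ring⟩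
    refine ((X_prime (i := (0 : Fin 4)) (R := K)).dvd_or_dvd h3).resolve_right ?_
    rintro ⟨w, hw⟩
    have := congrArg (eval (![0, 1, 0, 0] : Fin 4 → K)) hw
    simp at this
  obtain ⟨G, hG⟩ := hdvd
  have hX0 : (X 0 : MvPolynomial (Fin 4) K) ≠ 0 := X_ne_zero _
  refine ⟨G, ?_, fun i => ?_⟩
  · rintro rfl
    rw [mul_zero] at hG
    have := h2 0
    rw [hG, map_zero, ι, map_zero, co_zero, mul_one] at this
    exact hl this.symm
  · apply mul_right_cancel₀ hX0
    rw [hcross i, hG]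
    ring

lemma birational_of_coords {f : RatMap K 3} (hf : HasCoords f fun j => ph K (x0 K 3 j)) :
    f.Birational := by
  obtain ⟨g, hg⟩ := exists_hasCoords (fun j => phInv K (x0 K 3 j))
  exact ⟨g, comp_eq_of_inv hf hg (phInv_ph K), comp_eq_of_inv hg hf (ph_phInv K)⟩

end

end Pool.Agent.H950R2.Sil
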