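import Mathlib
import Pool.Agent.H950R2.Sil.Birat

set_option autoImplicit false

/-! # The degree growth -/

namespace Pool.Agent.H950R2.Sil

open MvPolynomial WeierstrassCurve

section

variable (K : Type*) [Field K]

/-- heights along the orbit -/
noncomputable def Xh (n : ℕ) : ℕ := ht (it K n (x1 K))

lemma it_ne {z : F3 K} (hz : z ≠ 0) (n : ℕ) : it K n z ≠ 0 := by
  simpa using hz

lemma ht_M (n : ℕ) : ht (it K n (xx K 1)) ≤ 4 * Xh K n + ht (tt K) := by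
  have hx : it K n (x1 K) ≠ 0 := it_ne K (x_ne K) n
  have h1 : (it K n (xx K 1) * it K n (x1 K)) ^ 2 + it K n (xx K 1) * it K n (x1 K) =
      it K n (x1 K) ^ 3 + tt K * it K n (x1 K) := by
    have h := congrArg (it K n) (on_curve (eq1 K))
    simp only [map_add, map_mul, map_pow, it_tt] at h
    exact h
  have h2 := ht_y h1
  have h3 : it K n (xx K 1) = (it K n (xx K 1) * it K n (x1 K)) / it K n (x1 K) := by
    field_simp
  have h4 := ht_div (it K n (xx K 1) * it K n (x1 K)) (it K n (x1 K))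
  rw [← h3] at h4
  rw [Xh]
  omega

lemma ht_M2 (n : ℕ) : ht (it K n (xx K 2)) ≤ 4 * Xh K (n + 1) + ht (tt K) := by
  have h := ht_M K (n + 1)
  rwa [it_succ, ph_xx1] at h

lemma ht_A (n : ℕ) : ht (it K n (xx K 0)) ≤ 5 * Xh K n + 5 * Xh K (n + 1) + 2 * ht (tt K) := by
  have hmn : it K n (xx K 1) - it K n (xx K 2) ≠ 0 := by
    rw [← map_sub]
    exact it_ne K (sub_ne_zero.mpr (mn_ne K)) n
  have h1 : it K n (xx K 0) = (it K n (x1 K) - it K n (x2 K)) /
      (it K n (xx K 1) - it K n (xx K 2)) := by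
    rw [eq_div_iff hmn]
    have h := congrArg (it K n) (xf_sub (D_ne K))
    simp only [map_mul, map_sub] at h
    exact h.symm
  have h2 := ht_div (it K n (x1 K) - it K n (x2 K)) (it K n (xx K 1) - it K n (xx K 2))
  rw [← h1] at h2
  have h3 := ht_sub (it K n (x1 K)) (it K n (x2 K))
  have h4 := ht_sub (it K n (xx K 1)) (it K n (xx K 2))
  have h5 := ht_M K n
  have h6 := ht_M2 K n
  have h7 : ht (it K n (x2 K)) = Xh K (n + 1) := by
    rw [Xh, it_succ, ph_x1]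
  have h8 : ht (it K n (x1 K)) = Xh K n := rfl
  omega

variable {K}

lemma deg_bounds {n : ℕ} {g : RatMap K 3} (hg : HasCoords g fun j => it K n (x0 K 3 j)) :
    Xh K n ≤ 3 * g.deg ∧ g.deg ≤ 9 * Xh K n + 9 * Xh K (n + 1) + 4 * ht (tt K) := by
  constructor
  · have h1 : it K n (xx K 1) + it K n (xx K 2) - 2 * it K n (xx K 0) ≠ 0 := by
      have := it_ne K (D_ne K) n
      simpa only [map_sub, map_add, map_mul, map_ofNat] using this
    have h2 := ht_xf_le hg h1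
    have h3 : it K n (x1 K) = xf (it K n (xx K 0)) (it K n (xx K 1)) (it K n (xx K 2)) :=
      map_x1 K (it K n)
    rw [Xh, h3]
    exact h2
  · have h1 := deg_le_ht hg
    have h2 : ht (it K n (x0 K 3 0)) ≤ _ := ht_A K n
    have h3 : ht (it K n (x0 K 3 1)) ≤ _ := ht_M K n
    have h4 : ht (it K n (x0 K 3 2)) ≤ _ := ht_M2 K n
    omega

lemma deg_growth {g : ℕ → RatMap K 3} (hg : ∀ n, HasCoords (g n) fun j => it K n (x0 K 3 j)) :
    SameGrowth (fun n => (n : ℝ) ^ 4) (fun n => ((g n).deg : ℝ)) := by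
  obtain ⟨c₁, c₂, h₁, h₂, n₀, h⟩ := growth K
  refine ⟨c₁ / 3, 9 * c₂ + 144 * c₂ + 4 * ht (tt K), by positivity, by positivity, n₀ + 1,
    fun n hn => ?_⟩
  obtain ⟨a1, a2⟩ := deg_bounds (hg n)
  have b1 := (h n (by omega)).1
  have b2 := (h n (by omega)).2
  have b3 := (h (n + 1) (by omega)).2
  have a1' : (Xh K n : ℝ) ≤ 3 * (g n).deg := by exact_mod_cast a1
  have a2' : ((g n).deg : ℝ) ≤ 9 * Xh K n + 9 * Xh K (n + 1) + 4 * ht (tt K) := by
    exact_mod_cast a2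
  have e1 : (ht (it K n (x1 K)) : ℝ) = Xh K n := rfl
  have e2 : (ht (it K (n + 1) (x1 K)) : ℝ) = Xh K (n + 1) := rfl
  rw [e1] at b1 b2
  rw [e2] at b3
  have hn1 : (1 : ℝ) ≤ n := by exact_mod_cast (by omega : 1 ≤ n)
  have b4 : (((n + 1 : ℕ) : ℝ)) ^ 4 ≤ 16 * (n : ℝ) ^ 4 := by
    have : (((n + 1 : ℕ) : ℝ)) ≤ 2 * n := by push_cast; linarith
    calc (((n + 1 : ℕ) : ℝ)) ^ 4 ≤ (2 * n) ^ 4 := by gcongr
      _ = 16 * (n : ℝ) ^ 4 := by ring
  have b5 : (1 : ℝ) ≤ (n : ℝ) ^ 4 := one_le_pow₀ hn1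
  have b6 : (0 : ℝ) ≤ ht (tt K) := by positivity
  have b7 : c₂ * (((n + 1 : ℕ) : ℝ)) ^ 4 ≤ c₂ * (16 * (n : ℝ) ^ 4) :=
    mul_le_mul_of_nonneg_left b4 h₂.le
  have b8 : (ht (tt K) : ℝ) ≤ ht (tt K) * (n : ℝ) ^ 4 := le_mul_of_one_le_right b6 b5
  beta_reduce
  constructor
  · linarith
  · nlinarith

end

/-- a sequence growing like `n ^ 4` has `n`-th roots tending to `1` -/
lemma tendsto_root {D : ℕ → ℝ} (h : SameGrowth (fun n => (n : ℝ) ^ 4) D) :
    Filter.Tendsto (fun n : ℕ => D n ^ (1 / (n : ℝ))) Filter.atTop (nhds 1) := by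
  obtain ⟨c₁, c₂, h₁, h₂, n₀, hn₀⟩ := h
  have key : ∀ c : ℝ, 0 < c → Filter.Tendsto (fun n : ℕ => (c * (n : ℝ) ^ 4) ^ (1 / (n : ℝ)))
      Filter.atTop (nhds 1) := by
    intro c hc
    have t1 : Filter.Tendsto (fun n : ℕ => (n : ℝ) ^ (1 / (n : ℝ))) Filter.atTop (nhds 1) :=
      tendsto_rpow_div.comp tendsto_natCast_atTop_atTop
    have t2 : Filter.Tendsto (fun n : ℕ => c ^ (1 / (n : ℝ))) Filter.atTop (nhds 1) := by
      have t3 : Filter.Tendsto (fun n : ℕ => (1 / (n : ℝ))) Filter.atTop (nhds 0) :=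
        tendsto_const_div_atTop_nhds_zero_nat 1
      have t4 := (Real.continuousAt_const_rpow hc.ne' (b := 0)).tendsto.comp t3
      rw [Real.rpow_zero] at t4
      exact t4
    have t5 := t2.mul (t1.pow 4)
    rw [one_pow, mul_one] at t5
    refine t5.congr' ?_
    filter_upwards [Filter.eventually_ge_atTop 1] with n hn
    have hn' : (0 : ℝ) < n := by exact_mod_cast hn
    rw [Real.mul_rpow hc.le (by positivity), ← Real.rpow_natCast, ← Real.rpow_natCast,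
      ← Real.rpow_mul hn'.le, ← Real.rpow_mul hn'.le, mul_comm ((4 : ℕ) : ℝ)]
  refine tendsto_of_tendsto_of_tendsto_of_le_of_le' (key c₁ h₁) (key c₂ h₂) ?_ ?_
  · filter_upwards [Filter.eventually_ge_atTop (n₀ + 1)] with n hn
    have hn' : (0 : ℝ) < n := by exact_mod_cast (by omega : 0 < n)
    have := (hn₀ n (by omega)).1
    beta_reduce at this
    exact Real.rpow_le_rpow (by positivity) this (by positivity)
  · filter_upwards [Filter.eventually_ge_atTop (n₀ + 1)] with n hn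
    have hn' : (0 : ℝ) < n := by exact_mod_cast (by omega : 0 < n)
    have h1 := (hn₀ n (by omega)).1
    have h2 := (hn₀ n (by omega)).2
    beta_reduce at h1 h2
    have h3 : 0 ≤ D n := le_trans (by positivity) h1
    exact Real.rpow_le_rpow h3 h2 (by positivity)

/-- a sequence growing like `n ^ 4` does not grow like `n ^ l` with `l ≤ 3` -/
lemma not_same {D : ℕ → ℝ} (h : SameGrowth (fun n => (n : ℝ) ^ 4) D) {l : ℕ} (hl : l ≤ 3) :
    ¬ SameGrowth (fun n => (n : ℝ) ^ l * 1 ^ n) D := by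
  rintro ⟨b₁, b₂, -, hb₂, m₀, hm₀⟩
  obtain ⟨c₁, c₂, h₁, h₂, n₀, hn₀⟩ := h
  obtain ⟨N, hN⟩ := exists_nat_gt (b₂ / c₁)
  set n := max (max n₀ m₀) (N + 1) with hn
  have hn1 : n₀ ≤ n := (le_max_left _ _).trans (le_max_left _ _)
  have hn2 : m₀ ≤ n := (le_max_right _ _).trans (le_max_left _ _)
  have hn3 : N + 1 ≤ n := le_max_right _ _
  have a1 := (hn₀ n hn1).1
  have a2 := (hm₀ n hn2).2
  beta_reduce at a1 a2
  rw [one_pow, mul_one] at a2
  have hn4 : (1 : ℝ) ≤ n := by exact_mod_cast (by omega : 1 ≤ n)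
  have hn5 : (N : ℝ) + 1 ≤ n := by exact_mod_cast hn3
  have a3 : (n : ℝ) ^ l ≤ (n : ℝ) ^ 3 := pow_le_pow_right₀ hn4 hl
  have a4 : c₁ * (n : ℝ) ^ 4 ≤ b₂ * (n : ℝ) ^ 3 := by
    have := mul_le_mul_of_nonneg_left a3 hb₂.le
    linarith
  have a5 : c₁ * n ≤ b₂ := by
    have h3 : (0 : ℝ) < (n : ℝ) ^ 3 := by positivity
    have h4 : (c₁ * n) * (n : ℝ) ^ 3 ≤ b₂ * (n : ℝ) ^ 3 := by
      calc (c₁ * n) * (n : ℝ) ^ 3 = c₁ * (n : ℝ) ^ 4 := by ring
        _ ≤ _ := a4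
    exact le_of_mul_le_mul_right h4 h3
  rw [div_lt_iff₀ h₁] at hN
  nlinarith

end Pool.Agent.H950R2.Sil
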